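import Pool.Agent.H444R2.SE.Defs

set_option autoImplicit false

namespace Pool.Agent.H444R2.SE

open Finset

theorem A1_bd_single {P : Type} [DecidableEq P] (σ : Finset P) :
    bd (Finsupp.single σ (1 : ZMod 2)) = ∑ x ∈ σ, Finsupp.single (σ.erase x) (1 : ZMod 2) := by
  unfold bd
  rw [Finsupp.linearCombination_single, one_smul]

theorem A1_ext {P : Type} (L L' : CC P →ₗ[ZMod 2] CC P)
    (h : ∀ σ, L (Finsupp.single σ 1) = L' (Finsupp.single σ 1)) (z : CC P) : L z = L' z := by
  have : L = L' := by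
    apply Finsupp.lhom_ext'
    intro σ
    apply LinearMap.ext_ring
    exact h σ
  rw [this]

theorem A1_bdbd {P : Type} [DecidableEq P] (z : CC P) : bd (bd z) = 0 := by
  have h := A1_ext (bd.comp bd) 0 (fun σ => by
    rw [LinearMap.comp_apply, A1_bd_single, map_sum]
    simp only [A1_bd_single, LinearMap.zero_apply]
    rw [Finset.sum_sigma']
    refine Finset.sum_involution (fun p _ => ⟨p.2, p.1⟩) ?_ ?_ ?_ ?_
    · rintro ⟨x, y⟩ _
      simp only
      rw [Finset.erase_right_comm]
      exact ZModModule.add_self _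
    · rintro ⟨x, y⟩ hp _ h
      simp only [Finset.mem_sigma, Finset.mem_erase] at hp
      simp only [Sigma.mk.injEq, heq_eq_eq] at h
      exact hp.2.1 h.1
    · rintro ⟨x, y⟩ hp
      simp only [Finset.mem_sigma, Finset.mem_erase] at hp ⊢
      exact ⟨hp.2.2, fun h => hp.2.1 h.symm, hp.1⟩
    · rintro ⟨x, y⟩ _
      rfl) z
  simpa using h

theorem t_A1 : S_A1 := by
  intro P _ z
  exact A1_bdbd z

end Pool.Agent.H444R2.SE
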