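import Pool.Agent.H444R2.SE.Defs

set_option autoImplicit false

namespace Pool.Agent.H444R2.SE

open Finset

theorem A2_bd_single {P : Type} [DecidableEq P] (σ : Finset P) :
    bd (Finsupp.single σ (1 : ZMod 2)) = ∑ x ∈ σ, Finsupp.single (σ.erase x) (1 : ZMod 2) := by
  unfold bd
  rw [Finsupp.linearCombination_single, one_smul]

theorem A2_ext {P : Type} (L L' : CC P →ₗ[ZMod 2] CC P)
    (h : ∀ σ, L (Finsupp.single σ 1) = L' (Finsupp.single σ 1)) (z : CC P) : L z = L' z := by
  have : L = L' := by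
    apply Finsupp.lhom_ext'
    intro σ
    apply LinearMap.ext_ring
    exact h σ
  rw [this]

/-- join with a point -/
noncomputable def A2_J {P : Type} [DecidableEq P] (t : P) : CC P →ₗ[ZMod 2] CC P :=
  Finsupp.linearCombination (ZMod 2)
    (fun σ : Finset P => if t ∈ σ then 0 else Finsupp.single (insert t σ) (1 : ZMod 2))

theorem A2_J_single {P : Type} [DecidableEq P] (t : P) (σ : Finset P) :
    A2_J t (Finsupp.single σ (1 : ZMod 2)) =
      if t ∈ σ then 0 else Finsupp.single (insert t σ) (1 : ZMod 2) := by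
  unfold A2_J
  rw [Finsupp.linearCombination_single, one_smul]

theorem A2_join {P : Type} [DecidableEq P] (t : P) (z : CC P) :
    bd (A2_J t z) + A2_J t (bd z) = z := by
  have h := A2_ext (bd.comp (A2_J t) + (A2_J t).comp bd) LinearMap.id (fun σ => by
    rw [LinearMap.add_apply, LinearMap.comp_apply, LinearMap.comp_apply, LinearMap.id_apply,
      A2_J_single, A2_bd_single, map_sum]
    by_cases ht : t ∈ σ
    · rw [if_pos ht, map_zero, zero_add, Finset.sum_eq_single_of_mem t ht]
      · rw [A2_J_single, if_neg (Finset.notMem_erase t σ), Finset.insert_erase ht]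
      · intro x _ hx
        rw [A2_J_single, if_pos (Finset.mem_erase.mpr ⟨fun h => hx h.symm, ht⟩)]
    · rw [if_neg ht, A2_bd_single, Finset.sum_insert ht, Finset.erase_insert ht, add_assoc]
      have : ∑ x ∈ σ, A2_J t (Finsupp.single (σ.erase x) (1 : ZMod 2)) =
          ∑ x ∈ σ, Finsupp.single ((insert t σ).erase x) (1 : ZMod 2) := by
        refine Finset.sum_congr rfl fun x hx => ?_
        rw [A2_J_single, if_neg (fun h => ht (Finset.mem_of_mem_erase h)),
          Finset.erase_insert_of_ne (fun h => ht (by rw [h]; exact hx))]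
      rw [this, ZModModule.add_self, add_zero]) z
  simpa using h

theorem A2_InK {P : Type} [PartialOrder P] (K : Finset P) (z : CC P) :
    InK K z ↔ z ∈ Finsupp.supported (ZMod 2) (ZMod 2) {τ : Finset P | Ch τ ∧ τ ⊆ K} := by
  rw [Finsupp.mem_supported]
  constructor
  · intro h τ hτ
    exact h τ hτ
  · intro h τ hτ
    exact h hτ

theorem A2_map {P : Type} (L : CC P →ₗ[ZMod 2] CC P) (A B : Set (Finset P))
    (h : ∀ σ ∈ A, L (Finsupp.single σ 1) ∈ Finsupp.supported (ZMod 2) (ZMod 2) B) (z : CC P)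
    (hz : z ∈ Finsupp.supported (ZMod 2) (ZMod 2) A) :
    L z ∈ Finsupp.supported (ZMod 2) (ZMod 2) B := by
  have h1 : Finsupp.supported (ZMod 2) (ZMod 2) A ≤
      (Finsupp.supported (ZMod 2) (ZMod 2) B).comap L := by
    rw [Finsupp.supported_eq_span_single (ZMod 2) A, Submodule.span_le]
    rintro _ ⟨σ, hσ, rfl⟩
    exact h σ hσ
  exact h1 hz

theorem A2_single {P : Type} (B : Set (Finset P)) (σ : Finset P) (h : σ ∈ B) :
    (Finsupp.single σ (1 : ZMod 2) : CC P) ∈ Finsupp.supported (ZMod 2) (ZMod 2) B :=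
  Finsupp.single_mem_supported (ZMod 2) 1 h

theorem A2_Ch_insert {P : Type} [PartialOrder P] [DecidableEq P] {t : P} {σ : Finset P}
    (h : Ch σ) (ht : ∀ y ∈ σ, y ≤ t ∨ t ≤ y) : Ch (insert t σ) := by
  intro x hx y hy
  rcases Finset.mem_insert.mp hx with hx1 | hx1
  · rcases Finset.mem_insert.mp hy with hy1 | hy1
    · rw [hx1, hy1]
      exact Or.inl le_rfl
    · rw [hx1]
      exact (ht y hy1).symm
  · rcases Finset.mem_insert.mp hy with hy1 | hy1
    · rw [hy1]
      exact ht x hx1
    · exact h x hx1 y hy1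

theorem t_A2 : S_A2 := by
  intro P _ _ K t ht hK z hz hbd
  refine ⟨A2_J t z, ?_, ?_⟩
  · rw [A2_InK] at hz ⊢
    refine A2_map (A2_J t) _ _ ?_ z hz
    rintro σ ⟨hσ, hσK⟩
    rw [A2_J_single]
    split_ifs with h
    · exact Submodule.zero_mem _
    · exact A2_single _ _ ⟨A2_Ch_insert hσ (fun y hy => hK y (hσK hy)),
        Finset.insert_subset ht hσK⟩
  · have h := A2_join t z
    rw [hbd, map_zero, add_zero] at h
    exact h

end Pool.Agent.H444R2.SE
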