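import Pool.Agent.H444R2.SE.Defs

set_option autoImplicit false

namespace Pool.Agent.H444R2.SE

open Finset

theorem A3_bd_single {P : Type} [DecidableEq P] (σ : Finset P) :
    bd (Finsupp.single σ (1 : ZMod 2)) = ∑ x ∈ σ, Finsupp.single (σ.erase x) (1 : ZMod 2) := by
  unfold bd
  rw [Finsupp.linearCombination_single, one_smul]

theorem A3_ext {P : Type} (L L' : CC P →ₗ[ZMod 2] CC P)
    (h : ∀ σ, L (Finsupp.single σ 1) = L' (Finsupp.single σ 1)) (z : CC P) : L z = L' z := by
  have : L = L' := by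
    apply Finsupp.lhom_ext'
    intro σ
    apply LinearMap.ext_ring
    exact h σ
  rw [this]

theorem A3_bdbd {P : Type} [DecidableEq P] (z : CC P) : bd (bd z) = 0 := by
  have h := A3_ext (bd.comp bd) 0 (fun σ => by
    rw [LinearMap.comp_apply, A3_bd_single, map_sum]
    simp only [A3_bd_single, LinearMap.zero_apply]
    rw [Finset.sum_sigma']
    refine Finset.sum_involution (fun p _ => ⟨p.2, p.1⟩) ?_ ?_ ?_ ?_
    · rintro ⟨x, y⟩ _
      simp only
      rw [Finset.erase_right_comm]
      exact ZModModule.add_self _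
    · rintro ⟨x, y⟩ hp _ h
      simp only [Finset.mem_sigma, Finset.mem_erase] at hp
      simp only [Sigma.mk.injEq, heq_eq_eq] at h
      exact hp.2.1 h.1
    · rintro ⟨x, y⟩ hp
      simp only [Finset.mem_sigma, Finset.mem_erase] at hp ⊢
      exact ⟨hp.2.2, fun h => hp.2.1 h.symm, hp.1⟩
    · rintro ⟨x, y⟩ _
      rfl) z
  simpa using h

/-- join with a point -/
noncomputable def A3_J {P : Type} [DecidableEq P] (t : P) : CC P →ₗ[ZMod 2] CC P :=
  Finsupp.linearCombination (ZMod 2)
    (fun σ : Finset P => if t ∈ σ then 0 else Finsupp.single (insert t σ) (1 : ZMod 2))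

theorem A3_J_single {P : Type} [DecidableEq P] (t : P) (σ : Finset P) :
    A3_J t (Finsupp.single σ (1 : ZMod 2)) =
      if t ∈ σ then 0 else Finsupp.single (insert t σ) (1 : ZMod 2) := by
  unfold A3_J
  rw [Finsupp.linearCombination_single, one_smul]

theorem A3_join {P : Type} [DecidableEq P] (t : P) (z : CC P) :
    bd (A3_J t z) + A3_J t (bd z) = z := by
  have h := A3_ext (bd.comp (A3_J t) + (A3_J t).comp bd) LinearMap.id (fun σ => by
    rw [LinearMap.add_apply, LinearMap.comp_apply, LinearMap.comp_apply, LinearMap.id_apply,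
      A3_J_single, A3_bd_single, map_sum]
    by_cases ht : t ∈ σ
    · rw [if_pos ht, map_zero, zero_add, Finset.sum_eq_single_of_mem t ht]
      · rw [A3_J_single, if_neg (Finset.notMem_erase t σ), Finset.insert_erase ht]
      · intro x _ hx
        rw [A3_J_single, if_pos (Finset.mem_erase.mpr ⟨fun h => hx h.symm, ht⟩)]
    · rw [if_neg ht, A3_bd_single, Finset.sum_insert ht, Finset.erase_insert ht, add_assoc]
      have : ∑ x ∈ σ, A3_J t (Finsupp.single (σ.erase x) (1 : ZMod 2)) =
          ∑ x ∈ σ, Finsupp.single ((insert t σ).erase x) (1 : ZMod 2) := by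
        refine Finset.sum_congr rfl fun x hx => ?_
        rw [A3_J_single, if_neg (fun h => ht (Finset.mem_of_mem_erase h)),
          Finset.erase_insert_of_ne (fun h => ht (by rw [h]; exact hx))]
      rw [this, ZModModule.add_self, add_zero]) z
  simpa using h

theorem A3_InK {P : Type} [PartialOrder P] (K : Finset P) (z : CC P) :
    InK K z ↔ z ∈ Finsupp.supported (ZMod 2) (ZMod 2) {τ : Finset P | Ch τ ∧ τ ⊆ K} := by
  rw [Finsupp.mem_supported]
  constructor
  · intro h τ hτ
    exact h τ hτ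
  · intro h τ hτ
    exact h hτ

theorem A3_map {P : Type} (L : CC P →ₗ[ZMod 2] CC P) (A B : Set (Finset P))
    (h : ∀ σ ∈ A, L (Finsupp.single σ 1) ∈ Finsupp.supported (ZMod 2) (ZMod 2) B) (z : CC P)
    (hz : z ∈ Finsupp.supported (ZMod 2) (ZMod 2) A) :
    L z ∈ Finsupp.supported (ZMod 2) (ZMod 2) B := by
  have h1 : Finsupp.supported (ZMod 2) (ZMod 2) A ≤
      (Finsupp.supported (ZMod 2) (ZMod 2) B).comap L := by
    rw [Finsupp.supported_eq_span_single (ZMod 2) A, Submodule.span_le]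
    rintro _ ⟨σ, hσ, rfl⟩
    exact h σ hσ
  exact h1 hz

theorem A3_single {P : Type} (B : Set (Finset P)) (σ : Finset P) (h : σ ∈ B) :
    (Finsupp.single σ (1 : ZMod 2) : CC P) ∈ Finsupp.supported (ZMod 2) (ZMod 2) B :=
  Finsupp.single_mem_supported (ZMod 2) 1 h

theorem A3_Ch_insert {P : Type} [PartialOrder P] [DecidableEq P] {t : P} {σ : Finset P}
    (h : Ch σ) (ht : ∀ y ∈ σ, y ≤ t ∨ t ≤ y) : Ch (insert t σ) := by
  intro x hx y hy
  rcases Finset.mem_insert.mp hx with hx1 | hx1
  · rcases Finset.mem_insert.mp hy with hy1 | hy1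
    · rw [hx1, hy1]
      exact Or.inl le_rfl
    · rw [hx1]
      exact (ht y hy1).symm
  · rcases Finset.mem_insert.mp hy with hy1 | hy1
    · rw [hy1]
      exact ht x hx1
    · exact h x hx1 y hy1

/-- remove a point -/
noncomputable def A3_R {P : Type} [DecidableEq P] (x : P) : CC P →ₗ[ZMod 2] CC P :=
  Finsupp.linearCombination (ZMod 2)
    (fun σ : Finset P => if x ∈ σ then Finsupp.single (σ.erase x) (1 : ZMod 2) else 0)

theorem A3_R_single {P : Type} [DecidableEq P] (x : P) (σ : Finset P) :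
    A3_R x (Finsupp.single σ (1 : ZMod 2)) =
      if x ∈ σ then Finsupp.single (σ.erase x) (1 : ZMod 2) else 0 := by
  unfold A3_R
  rw [Finsupp.linearCombination_single, one_smul]

theorem A3_bdR {P : Type} [DecidableEq P] (x : P) (z : CC P) :
    bd (A3_R x z) = A3_R x (bd z) := by
  have h := A3_ext (bd.comp (A3_R x)) ((A3_R x).comp bd) (fun σ => by
    rw [LinearMap.comp_apply, LinearMap.comp_apply, A3_R_single, A3_bd_single, map_sum]
    by_cases hx : x ∈ σ
    · rw [if_pos hx, A3_bd_single, ← Finset.add_sum_erase _ _ hx, A3_R_single,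
        if_neg (Finset.notMem_erase x σ), zero_add]
      refine Finset.sum_congr rfl fun y hy => ?_
      rw [A3_R_single, if_pos (Finset.mem_erase.mpr ⟨(Finset.ne_of_mem_erase hy).symm, hx⟩),
        Finset.erase_right_comm]
    · rw [if_neg hx, map_zero]
      symm
      refine Finset.sum_eq_zero fun y _ => ?_
      rw [A3_R_single, if_neg (fun h => hx (Finset.mem_of_mem_erase h))]) z
  simpa using h

theorem A3_arith {G : Type} [AddCommGroup G] (z B X W : G) (h : B + X = W) :
    z + B = (z - X) + W := by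
  rw [← h]
  abel

theorem t_A3 : S_A3 := by
  intro P _ _ K x t hx ht htx hcomp hK hac z hz hbd
  rw [A3_InK] at hz
  set A : Set (Finset P) := {τ | Ch τ ∧ τ ⊆ K.erase x ∧ ∀ y ∈ τ, y ≤ x ∨ x ≤ y} with hA
  have h1 : A3_R x z ∈ Finsupp.supported (ZMod 2) (ZMod 2) A := by
    refine A3_map (A3_R x) _ _ ?_ z hz
    rintro σ ⟨hσ, hσK⟩
    rw [A3_R_single]
    split_ifs with h
    · apply A3_single
      refine ⟨fun a ha b hb => hσ a (Finset.mem_of_mem_erase ha) b (Finset.mem_of_mem_erase hb),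
        Finset.erase_subset_erase x hσK, ?_⟩
      intro y hy
      exact hσ y (Finset.mem_of_mem_erase hy) x h
    · exact Submodule.zero_mem _
  have h2 : A3_J t (A3_R x z) ∈ Finsupp.supported (ZMod 2) (ZMod 2) A := by
    refine A3_map (A3_J t) _ _ ?_ _ h1
    rintro σ ⟨hσ, hσK, hσx⟩
    rw [A3_J_single]
    split_ifs with h
    · exact Submodule.zero_mem _
    · apply A3_single
      refine ⟨A3_Ch_insert hσ (fun y hy => hK y (Finset.mem_of_mem_erase (hσK hy)) (hσx y hy)),
        Finset.insert_subset (Finset.mem_erase.mpr ⟨htx, ht⟩) hσK, ?_⟩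
      intro y hy
      rcases Finset.mem_insert.mp hy with rfl | hy
      · exact hcomp
      · exact hσx y hy
  have h3 : A3_J x (A3_J t (A3_R x z)) ∈
      Finsupp.supported (ZMod 2) (ZMod 2) {τ : Finset P | Ch τ ∧ τ ⊆ K} := by
    refine A3_map (A3_J x) _ _ ?_ _ h2
    rintro σ ⟨hσ, hσK, hσx⟩
    rw [A3_J_single]
    split_ifs with h
    · exact Submodule.zero_mem _
    · apply A3_single
      exact ⟨A3_Ch_insert hσ hσx, Finset.insert_subset hx (hσK.trans (Finset.erase_subset x K))⟩
  have h4 : z - A3_J x (A3_R x z) ∈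
      Finsupp.supported (ZMod 2) (ZMod 2) {τ : Finset P | Ch τ ∧ τ ⊆ K.erase x} := by
    refine A3_map (LinearMap.id - (A3_J x).comp (A3_R x)) _ _ ?_ _ hz
    rintro σ ⟨hσ, hσK⟩
    rw [LinearMap.sub_apply, LinearMap.comp_apply, LinearMap.id_apply, A3_R_single]
    split_ifs with h
    · rw [A3_J_single, if_neg (Finset.notMem_erase x σ), Finset.insert_erase h, sub_self]
      exact Submodule.zero_mem _
    · rw [map_zero, sub_zero]
      apply A3_single
      exact ⟨hσ, Finset.subset_erase.mpr ⟨hσK, h⟩⟩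
  have h5 : bd (A3_R x z) = 0 := by rw [A3_bdR, hbd, map_zero]
  have h6 : bd (A3_J t (A3_R x z)) = A3_R x z := by
    have h := A3_join t (A3_R x z)
    rw [h5, map_zero, add_zero] at h
    exact h
  have h7 : bd (A3_J x (A3_J t (A3_R x z))) + A3_J x (A3_R x z) = A3_J t (A3_R x z) := by
    have h := A3_join x (A3_J t (A3_R x z))
    rw [h6] at h
    exact h
  have h8 : z + bd (A3_J x (A3_J t (A3_R x z))) =
      (z - A3_J x (A3_R x z)) + A3_J t (A3_R x z) := A3_arith _ _ _ _ h7
  have h9 : InK (K.erase x) (z + bd (A3_J x (A3_J t (A3_R x z)))) := by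
    rw [A3_InK, h8]
    refine Submodule.add_mem _ h4 ?_
    exact Finsupp.supported_mono (M := ZMod 2) (R := ZMod 2) (s := A)
      (t := {τ : Finset P | Ch τ ∧ τ ⊆ K.erase x}) (fun τ h => ⟨h.1, h.2.1⟩) h2
  have h10 : bd (z + bd (A3_J x (A3_J t (A3_R x z)))) = 0 := by
    rw [map_add, hbd, A3_bdbd, add_zero]
  obtain ⟨w, hw, hbw⟩ := hac _ h9 h10
  refine ⟨w - A3_J x (A3_J t (A3_R x z)), ?_, ?_⟩
  · rw [A3_InK] at hw ⊢
    refine Submodule.sub_mem _ ?_ h3
    exact Finsupp.supported_mono (M := ZMod 2) (R := ZMod 2)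
      (s := {τ : Finset P | Ch τ ∧ τ ⊆ K.erase x})
      (t := {τ : Finset P | Ch τ ∧ τ ⊆ K})
      (fun τ h => ⟨h.1, h.2.trans (Finset.erase_subset x K)⟩) hw
  · rw [map_sub, hbw, add_sub_cancel_right]

end Pool.Agent.H444R2.SE
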