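import Pool.Agent.H444R2.SE.Defs

set_option autoImplicit false

namespace Pool.Agent.H444R2.SE

open Finset

theorem t_A4 (h3 : S_A3) : S_A4 := by
  intro P _ _
  suffices H : ∀ (n : ℕ) (K K' : Finset P), (K \ K').card = n → K' ⊆ K →
      (∀ y ∈ K, y ∉ K' → ∃ t ∈ K', y < t ∧ ∀ z ∈ K', y ≤ z → t ≤ z) → Acyc K' → Acyc K from
    fun K K' => H _ K K' rfl
  intro n
  induction n with
  | zero =>
    intro K K' h0 hsub _ hA
    have h1 : K ⊆ K' := by
      rw [← Finset.sdiff_eq_empty_iff_subset]
      exact Finset.card_eq_zero.1 h0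
    have h2 : K = K' := Finset.Subset.antisymm h1 hsub
    rw [h2]
    exact hA
  | succ n ih =>
    intro K K' hn hsub hH hA
    have hne : (K \ K').Nonempty := by
      rw [← Finset.card_pos]
      omega
    obtain ⟨y, hy, hmax⟩ := Finset.exists_maximal hne
    rw [Finset.mem_sdiff] at hy
    obtain ⟨t, ht, hyt, htz⟩ := hH y hy.1 hy.2
    apply h3 P K y t hy.1 (hsub ht) hyt.ne' (Or.inr hyt.le)
    · intro z hz hzy
      rcases hzy with h | h
      · exact Or.inl (h.trans hyt.le)
      · by_cases hzK : z ∈ K'
        · exact Or.inr (htz z hzK h)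
        · left
          have h4 : z ≤ y := hmax (Finset.mem_sdiff.2 ⟨hz, hzK⟩) h
          exact h4.trans hyt.le
    · apply ih (K.erase y) K'
      · have h5 : K.erase y \ K' = (K \ K').erase y := by
          ext z
          simp only [Finset.mem_sdiff, Finset.mem_erase]
          tauto
        rw [h5, Finset.card_erase_of_mem (Finset.mem_sdiff.2 hy), hn]
        rfl
      · intro z hz
        rw [Finset.mem_erase]
        refine ⟨?_, hsub hz⟩
        rintro rfl
        exact hy.2 hz
      · intro z hz hz'
        exact hH z (Finset.mem_of_mem_erase hz) hz'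
      · exact hA

end Pool.Agent.H444R2.SE
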