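import Pool.Agent.H444R2.SE.Defs

set_option autoImplicit false

/-! A5: existence of a homotopy by acyclic carriers. -/

namespace Pool.Agent.H444R2.SE

open Finset

private theorem A5_two {P : Type} (v : CC P) : v + v = 0 := by
  ext τ
  exact CharTwo.add_self_eq_zero (v τ)

private theorem A5_add {P : Type} [PartialOrder P] {K : Finset P} {v w : CC P} (hv : InK K v)
    (hw : InK K w) : InK K (v + w) := by
  classical
  intro τ hτ
  rcases Finset.mem_union.mp (Finsupp.support_add hτ) with h | h
  · exact hv τ h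
  · exact hw τ h

private theorem A5_zero {P : Type} [PartialOrder P] {K : Finset P} : InK K (0 : CC P) := by
  intro τ hτ
  simp at hτ

private theorem A5_sum {P ι : Type} [PartialOrder P] {K : Finset P} (s : Finset ι) (v : ι → CC P)
    (hv : ∀ i ∈ s, InK K (v i)) : InK K (∑ i ∈ s, v i) := by
  classical
  induction s using Finset.induction_on with
  | empty => simpa using A5_zero
  | insert a s ha ih =>
    rw [Finset.sum_insert ha]
    exact A5_add (hv a (Finset.mem_insert_self a s))
      (ih fun i hi => hv i (Finset.mem_insert_of_mem hi))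

private theorem A5_mono {P : Type} [PartialOrder P] {K K' : Finset P} (h : K ⊆ K') {v : CC P}
    (hv : InK K v) : InK K' v := fun τ hτ => ⟨(hv τ hτ).1, (hv τ hτ).2.trans h⟩

private theorem A5_bd {P : Type} [DecidableEq P] (σ : Finset P) :
    bd (Finsupp.single σ (1 : ZMod 2)) = ∑ x ∈ σ, Finsupp.single (σ.erase x) (1 : ZMod 2) := by
  unfold bd
  rw [Finsupp.linearCombination_single, one_smul]

private noncomputable def A5_H {P : Type} (h : Finset P → CC P) : CC P →ₗ[ZMod 2] CC P :=
  Finsupp.linearCombination (ZMod 2) h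

private theorem A5_Hs {P : Type} (h : Finset P → CC P) (σ : Finset P) :
    A5_H h (Finsupp.single σ (1 : ZMod 2)) = h σ := by
  unfold A5_H
  rw [Finsupp.linearCombination_single, one_smul]

private theorem A5_Hbd {P : Type} [DecidableEq P] (h : Finset P → CC P) (σ : Finset P) :
    A5_H h (bd (Finsupp.single σ (1 : ZMod 2))) = ∑ x ∈ σ, h (σ.erase x) := by
  rw [A5_bd, map_sum]
  exact Finset.sum_congr rfl fun x _ => A5_Hs h _

theorem t_A5 (h1 : S_A1) : S_A5 := by
  intro P _ _ N K T hN hK hA hT0 hT hTK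
  have key : ∀ n : ℕ, ∃ h : Finset P → CC P, h ∅ = 0 ∧ ∀ σ : Finset P, σ.Nonempty → Ch σ →
      σ.card ≤ n → InK (K σ) (h σ) ∧
        bd (h σ) + ∑ x ∈ σ, h (σ.erase x) = T (Finsupp.single σ 1) := by
    intro n
    induction n with
    | zero =>
      refine ⟨fun _ => 0, rfl, fun σ hσ _ hc => ?_⟩
      have := Finset.card_pos.mpr hσ
      omega
    | succ n ih =>
      obtain ⟨h, h0, hh⟩ := ih
      -- the homotopy formula for all chains of cardinality at most n
      have hf : ∀ ρ : Finset P, Ch ρ → ρ.card ≤ n →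
          bd (h ρ) = T (Finsupp.single ρ 1) + A5_H h (bd (Finsupp.single ρ (1 : ZMod 2))) := by
        intro ρ hρ hc
        rcases Finset.eq_empty_or_nonempty ρ with rfl | hne
        · rw [h0, A5_Hbd, hT0]; simp
        · have h2 := (hh ρ hne hρ hc).2
          rw [A5_Hbd, ← h2, add_assoc, A5_two, add_zero]
      have hex : ∀ σ : Finset P, σ.Nonempty → Ch σ → σ.card = n + 1 → ∃ w : CC P, InK (K σ) w ∧
          bd w = T (Finsupp.single σ 1) + ∑ x ∈ σ, h (σ.erase x) := by
        intro σ hne hσ hc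
        have hsub : ∀ x ∈ σ, Ch (σ.erase x) ∧ (σ.erase x).card ≤ n := by
          intro x hx
          refine ⟨fun a ha b hb => hσ a (Finset.mem_of_mem_erase ha) b (Finset.mem_of_mem_erase hb),
            ?_⟩
          rw [Finset.card_erase_of_mem hx]; omega
        refine hA σ hne hσ _ ?_ ?_
        · refine A5_add (hTK σ hne hσ) (A5_sum _ _ fun x hx => ?_)
          rcases Finset.eq_empty_or_nonempty (σ.erase x) with he | he
          · rw [he, h0]; exact A5_zero
          · exact A5_mono (hK _ _ (Finset.erase_subset x σ)) (hh _ he (hsub x hx).1 (hsub x hx).2).1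
        · rw [map_add, hT, map_sum]
          have h3 : ∑ x ∈ σ, bd (h (σ.erase x)) = ∑ x ∈ σ, (T (Finsupp.single (σ.erase x) 1) +
              A5_H h (bd (Finsupp.single (σ.erase x) (1 : ZMod 2)))) :=
            Finset.sum_congr rfl fun x hx => hf _ (hsub x hx).1 (hsub x hx).2
          have h4 : ∑ x ∈ σ, T (Finsupp.single (σ.erase x) 1) =
              T (bd (Finsupp.single σ (1 : ZMod 2))) := by rw [A5_bd, map_sum]
          have h5 : ∑ x ∈ σ, A5_H h (bd (Finsupp.single (σ.erase x) (1 : ZMod 2))) =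
              A5_H h (bd (bd (Finsupp.single σ (1 : ZMod 2)))) := by
            rw [A5_bd σ, map_sum, map_sum]
          rw [h3, Finset.sum_add_distrib, h4, h5, h1, map_zero, add_zero, A5_two]
      classical
      refine ⟨fun σ => if hσ : σ.Nonempty ∧ Ch σ ∧ σ.card = n + 1 then
        (hex σ hσ.1 hσ.2.1 hσ.2.2).choose else h σ, ?_, ?_⟩
      · show (if hσ : (∅ : Finset P).Nonempty ∧ Ch (∅ : Finset P) ∧ (∅ : Finset P).card = n + 1 then
            (hex ∅ hσ.1 hσ.2.1 hσ.2.2).choose else h ∅) = 0
        rw [dif_neg (fun h2 => Finset.not_nonempty_empty h2.1), h0]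
      · intro σ hne hσ hc
        have herase : ∀ x ∈ σ, (if hσ : (σ.erase x).Nonempty ∧ Ch (σ.erase x) ∧
            (σ.erase x).card = n + 1 then (hex (σ.erase x) hσ.1 hσ.2.1 hσ.2.2).choose
            else h (σ.erase x)) = h (σ.erase x) := by
          intro x hx
          rw [dif_neg]
          rintro ⟨-, -, h2⟩
          rw [Finset.card_erase_of_mem hx] at h2
          omega
        have hsum : ∑ x ∈ σ, (if hσ : (σ.erase x).Nonempty ∧ Ch (σ.erase x) ∧
            (σ.erase x).card = n + 1 then (hex (σ.erase x) hσ.1 hσ.2.1 hσ.2.2).choose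
            else h (σ.erase x)) = ∑ x ∈ σ, h (σ.erase x) := Finset.sum_congr rfl herase
        by_cases hcn : σ.card = n + 1
        · have hcond : σ.Nonempty ∧ Ch σ ∧ σ.card = n + 1 := ⟨hne, hσ, hcn⟩
          have hw := (hex σ hcond.1 hcond.2.1 hcond.2.2).choose_spec
          show InK (K σ) (if hσ : σ.Nonempty ∧ Ch σ ∧ σ.card = n + 1 then
              (hex σ hσ.1 hσ.2.1 hσ.2.2).choose else h σ) ∧
            bd (if hσ : σ.Nonempty ∧ Ch σ ∧ σ.card = n + 1 then
              (hex σ hσ.1 hσ.2.1 hσ.2.2).choose else h σ) + _ = _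
          rw [dif_pos hcond]
          refine ⟨hw.1, ?_⟩
          rw [hw.2]
          refine (congrArg (fun v => T (Finsupp.single σ 1) + ∑ x ∈ σ, h (σ.erase x) + v)
            hsum).trans ?_
          show T (Finsupp.single σ 1) + ∑ x ∈ σ, h (σ.erase x) + ∑ x ∈ σ, h (σ.erase x) = _
          rw [add_assoc, A5_two, add_zero]
        · have hncond : ¬ (σ.Nonempty ∧ Ch σ ∧ σ.card = n + 1) := fun h2 => hcn h2.2.2
          have h2 := hh σ hne hσ (by omega)
          show InK (K σ) (if hσ : σ.Nonempty ∧ Ch σ ∧ σ.card = n + 1 then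
              (hex σ hσ.1 hσ.2.1 hσ.2.2).choose else h σ) ∧
            bd (if hσ : σ.Nonempty ∧ Ch σ ∧ σ.card = n + 1 then
              (hex σ hσ.1 hσ.2.1 hσ.2.2).choose else h σ) + _ = _
          rw [dif_neg hncond]
          refine ⟨h2.1, ?_⟩
          exact (congrArg (fun v => bd (h σ) + v) hsum).trans h2.2
  obtain ⟨h, h0, hh⟩ := key N
  refine ⟨A5_H h, by rw [A5_Hs, h0], fun σ hne hσ => ?_⟩
  rw [A5_Hs, A5_Hbd]
  exact hh σ hne hσ (hN σ hσ)

end Pool.Agent.H444R2.SE
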