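import Pool.Agent.H444R2.SE.Defs

set_option autoImplicit false

namespace Pool.Agent.H444R2.SE

open Finset

theorem A6_single {P : Type} [DecidableEq P] (f : P → P) (σ : Finset P) :
    bd (fs f (Finsupp.single σ 1)) = fs f (bd (Finsupp.single σ 1)) := by
  have hb : ∀ ρ : Finset P, bd (Finsupp.single ρ (1 : ZMod 2)) =
      ∑ x ∈ ρ, Finsupp.single (ρ.erase x) (1 : ZMod 2) := by
    intro ρ
    rw [bd, Finsupp.linearCombination_single, one_smul]
  have hf : ∀ ρ : Finset P, fs f (Finsupp.single ρ (1 : ZMod 2)) =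
      if (ρ.image f).card = ρ.card then Finsupp.single (ρ.image f) (1 : ZMod 2) else 0 := by
    intro ρ
    rw [fs, Finsupp.linearCombination_single, one_smul]
  rw [hf, hb, map_sum]
  simp only [hf]
  by_cases hc : (σ.image f).card = σ.card
  · rw [if_pos hc, hb]
    have hinj : Set.InjOn f σ := Finset.card_image_iff.1 hc
    rw [Finset.sum_image hinj]
    refine Finset.sum_congr rfl fun x hx => ?_
    have hinj' : Set.InjOn f (σ.erase x : Finset P) :=
      hinj.mono (by exact_mod_cast Finset.erase_subset x σ)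
    rw [if_pos (Finset.card_image_iff.2 hinj')]
    congr 1
    ext y
    simp only [Finset.mem_erase, Finset.mem_image]
    constructor
    · rintro ⟨hne, z, hz, rfl⟩
      exact ⟨z, ⟨fun h => hne (by rw [h]), hz⟩, rfl⟩
    · rintro ⟨z, ⟨hzx, hz⟩, rfl⟩
      exact ⟨fun h => hzx (hinj hz hx h), z, hz, rfl⟩
  · rw [if_neg hc, map_zero]
    have hninj : ¬ Set.InjOn f σ := fun h => hc (Finset.card_image_iff.2 h)
    unfold Set.InjOn at hninj
    push Not at hninj
    obtain ⟨x, hx, y, hy, hxy, hne⟩ := hninj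
    have hx' : x ∈ σ := hx
    have hy' : y ∈ σ := hy
    have himx : (σ.erase x).image f = σ.image f := by
      ext z
      simp only [Finset.mem_erase, Finset.mem_image]
      constructor
      · rintro ⟨w, ⟨_, hw⟩, rfl⟩
        exact ⟨w, hw, rfl⟩
      · rintro ⟨w, hw, rfl⟩
        by_cases hwx : w = x
        · exact ⟨y, ⟨hne.symm, hy'⟩, by rw [hwx, hxy]⟩
        · exact ⟨w, ⟨hwx, hw⟩, rfl⟩
    have himy : (σ.erase y).image f = σ.image f := by
      ext z
      simp only [Finset.mem_erase, Finset.mem_image]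
      constructor
      · rintro ⟨w, ⟨_, hw⟩, rfl⟩
        exact ⟨w, hw, rfl⟩
      · rintro ⟨w, hw, rfl⟩
        by_cases hwy : w = y
        · exact ⟨x, ⟨hne, hx'⟩, by rw [hwy, hxy]⟩
        · exact ⟨w, ⟨hwy, hw⟩, rfl⟩
    have hsub : ({x, y} : Finset P) ⊆ σ := by
      intro z hz
      rw [Finset.mem_insert, Finset.mem_singleton] at hz
      rcases hz with rfl | rfl
      · exact hx'
      · exact hy'
    rw [← Finset.sum_subset hsub]
    · rw [Finset.sum_pair hne, himx, himy, Finset.card_erase_of_mem hx',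
        Finset.card_erase_of_mem hy']
      ext τ
      rw [Finsupp.add_apply, Finsupp.zero_apply]
      exact (CharTwo.add_self_eq_zero _).symm
    · intro z hz hzn
      rw [Finset.mem_insert, Finset.mem_singleton, not_or] at hzn
      refine if_neg fun h => ?_
      have hinj : Set.InjOn f (σ.erase z : Finset P) := Finset.card_image_iff.1 h
      have h1 : x ∈ σ.erase z := Finset.mem_erase.2 ⟨fun h => hzn.1 h.symm, hx'⟩
      have h2 : y ∈ σ.erase z := Finset.mem_erase.2 ⟨fun h => hzn.2 h.symm, hy'⟩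
      exact hne (hinj (by exact_mod_cast h1) (by exact_mod_cast h2) hxy)

theorem t_A6 : S_A6 := by
  intro P _ f z
  have h : (bd : CC P →ₗ[ZMod 2] CC P) ∘ₗ fs f = fs f ∘ₗ bd := by
    refine Finsupp.lhom_ext' fun σ => LinearMap.ext_ring ?_
    exact A6_single f σ
  exact congrArg (fun L : CC P →ₗ[ZMod 2] CC P => L z) h

end Pool.Agent.H444R2.SE
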