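import Pool.Agent.H444R2.SE.Defs

set_option autoImplicit false

/-! The map `cs` is a chain map. -/

namespace Pool.Agent.H444R2.SE

open Finset

theorem A6b_bd {P : Type} [DecidableEq P] (σ : Finset P) :
    bd (Finsupp.single σ (1 : ZMod 2)) = ∑ x ∈ σ, Finsupp.single (σ.erase x) (1 : ZMod 2) := by
  unfold bd
  rw [Finsupp.linearCombination_single, one_smul]

theorem A6b_cs {P : Type} [DecidableEq P] (s : P) (σ : Finset P) :
    cs s (Finsupp.single σ (1 : ZMod 2)) =
      if σ.card = 0 then Finsupp.single (∅ : Finset P) (1 : ZMod 2)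
      else if σ.card = 1 then Finsupp.single ({s} : Finset P) (1 : ZMod 2) else 0 := by
  unfold cs
  rw [Finsupp.linearCombination_single, one_smul]

theorem A6b_single {P : Type} [DecidableEq P] (s : P) (σ : Finset P) :
    bd (cs s (Finsupp.single σ (1 : ZMod 2))) = cs s (bd (Finsupp.single σ (1 : ZMod 2))) := by
  rw [A6b_cs, A6b_bd, map_sum]
  simp only [A6b_cs]
  by_cases h0 : σ.card = 0
  · rw [if_pos h0]
    rw [Finset.card_eq_zero] at h0
    subst h0
    rw [A6b_bd]
    simp
  · rw [if_neg h0]
    by_cases h1 : σ.card = 1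
    · rw [if_pos h1]
      obtain ⟨x, rfl⟩ := Finset.card_eq_one.1 h1
      rw [A6b_bd]
      simp
    · rw [if_neg h1, map_zero]
      have hc : ∀ x ∈ σ, (σ.erase x).card = σ.card - 1 := fun x hx => Finset.card_erase_of_mem hx
      by_cases h2 : σ.card = 2
      · have h3 : ∀ x ∈ σ, (if (σ.erase x).card = 0 then
            Finsupp.single (∅ : Finset P) (1 : ZMod 2)
          else if (σ.erase x).card = 1 then Finsupp.single ({s} : Finset P) (1 : ZMod 2) else 0) =
            Finsupp.single ({s} : Finset P) (1 : ZMod 2) := by
          intro x hx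
          rw [hc x hx, h2]
          simp
        rw [Finset.sum_congr rfl h3, Finset.sum_const, h2]
        rw [← Nat.cast_smul_eq_nsmul (ZMod 2)]
        have : ((2 : ℕ) : ZMod 2) = 0 := by decide
        rw [this, zero_smul]
      · symm
        apply Finset.sum_eq_zero
        intro x hx
        rw [hc x hx, if_neg (by omega), if_neg (by omega)]

theorem t_A6b : S_A6b := by
  intro P _ s z
  induction z using Finsupp.induction_linear with
  | zero => simp
  | add x y hx hy => rw [map_add, map_add, map_add, map_add, hx, hy]
  | single σ c =>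
    have h : (Finsupp.single σ c : CC P) = c • Finsupp.single σ (1 : ZMod 2) := by
      rw [Finsupp.smul_single, smul_eq_mul, mul_one]
    rw [h, map_smul, map_smul, map_smul, map_smul, A6b_single]

end Pool.Agent.H444R2.SE
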