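import Pool.Agent.H444R2.SE.Defs

set_option autoImplicit false

/-! The component of the chain `{s}` is infinite (mod 2 Lefschetz argument). -/

namespace Pool.Agent.H444R2.SE

open Finset

/-- incidence number -/
def A7_c {P : Type} [DecidableEq P] (σ τ : Finset P) : ZMod 2 :=
  ∑ x ∈ τ, if τ.erase x = σ then 1 else 0

theorem A7_c_ne {P : Type} [DecidableEq P] (σ τ : Finset P) (h : A7_c σ τ ≠ 0) :
    σ ⊆ τ ∧ τ.card = σ.card + 1 := by
  unfold A7_c at h
  obtain ⟨x, hx, hx'⟩ := Finset.exists_ne_zero_of_sum_ne_zero h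
  have h1 : τ.erase x = σ := by
    by_contra hne
    rw [if_neg hne] at hx'
    exact hx' rfl
  subst h1
  refine ⟨Finset.erase_subset _ _, ?_⟩
  rw [Finset.card_erase_of_mem hx]
  have := Finset.card_pos.2 ⟨x, hx⟩
  omega

theorem A7_bd {P : Type} [DecidableEq P] (w : CC P) (σ : Finset P) :
    (bd w) σ = ∑ τ ∈ w.support, w τ * A7_c σ τ := by
  unfold bd
  rw [Finsupp.linearCombination_apply, Finsupp.sum, Finsupp.finsetSum_apply]
  apply Finset.sum_congr rfl
  intro τ _
  rw [Finsupp.smul_apply, Finsupp.finsetSum_apply, smul_eq_mul]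
  congr 1
  unfold A7_c
  apply Finset.sum_congr rfl
  intro x _
  rw [Finsupp.single_apply]

theorem A7_bd_single {P : Type} [DecidableEq P] (σ : Finset P) :
    bd (Finsupp.single σ (1 : ZMod 2)) = ∑ x ∈ σ, Finsupp.single (σ.erase x) (1 : ZMod 2) := by
  unfold bd
  rw [Finsupp.linearCombination_single, one_smul]

theorem A7_fs {P : Type} [DecidableEq P] (f : P → P) (σ : Finset P) :
    fs f (Finsupp.single σ (1 : ZMod 2)) =
      if (σ.image f).card = σ.card then Finsupp.single (σ.image f) (1 : ZMod 2) else 0 := by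
  unfold fs
  rw [Finsupp.linearCombination_single, one_smul]

theorem A7_cs {P : Type} [DecidableEq P] (s : P) (σ : Finset P) :
    cs s (Finsupp.single σ (1 : ZMod 2)) =
      if σ.card = 0 then Finsupp.single (∅ : Finset P) (1 : ZMod 2)
      else if σ.card = 1 then Finsupp.single ({s} : Finset P) (1 : ZMod 2) else 0 := by
  unfold cs
  rw [Finsupp.linearCombination_single, one_smul]

theorem A7_add {P : Type} [PartialOrder P] (K : Finset P) (z w : CC P) (hz : InK K z)
    (hw : InK K w) : InK K (z + w) := by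
  classical
  intro τ hτ
  have := Finsupp.support_add hτ
  rw [mem_union] at this
  rcases this with h | h
  · exact hz τ h
  · exact hw τ h

theorem A7_single {P : Type} [PartialOrder P] (K τ : Finset P) (h1 : Ch τ) (h2 : τ ⊆ K) :
    InK K (Finsupp.single τ (1 : ZMod 2)) := by
  intro ρ hρ
  have := Finsupp.support_single_subset hρ
  rw [mem_singleton] at this
  subst this
  exact ⟨h1, h2⟩

theorem A7_zero {P : Type} [PartialOrder P] (K : Finset P) : InK K (0 : CC P) := by
  intro ρ hρ
  simp at hρ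

theorem t_A7 (h5 : S_A5) (h6 : S_A6) (h6b : S_A6b) : S_A7 := by
  intro P _ _ N K f s hN hf hmono hac himg hs hne F hF hsF
  by_contra hcon
  have hiff : ∀ σ τ, Rl K σ τ → (σ ∈ F ↔ τ ∈ F) := by
    intro σ τ hR
    by_contra hh
    apply hcon
    refine ⟨σ, τ, hR, ?_⟩
    by_cases h1 : σ ∈ F <;> by_cases h2 : τ ∈ F <;> simp_all
  have hZ2 : ∀ x : ZMod 2, x + x = 0 := by decide
  obtain ⟨h, hh0, hh⟩ := h5 P N K (fs f + cs s) hN hmono hac (by
      rw [LinearMap.add_apply, A7_fs, A7_cs]
      simp only [Finset.image_empty, Finset.card_empty, if_true]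
      rw [← Finsupp.single_add, hZ2, Finsupp.single_zero]) (by
      intro z
      rw [LinearMap.add_apply, LinearMap.add_apply, map_add, h6, h6b]) (by
      intro σ hσ hch
      rw [LinearMap.add_apply, A7_fs, A7_cs]
      apply A7_add
      · split_ifs
        · apply A7_single _ _ _ (himg σ)
          intro x hx y hy
          rw [mem_image] at hx hy
          obtain ⟨x, hx, rfl⟩ := hx
          obtain ⟨y, hy, rfl⟩ := hy
          rcases hch x hx y hy with h | h
          · exact Or.inl (hf h)
          · exact Or.inr (hf h)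
        · exact A7_zero _
      · split_ifs with h1 h2
        · rw [Finset.card_eq_zero] at h1
          rw [h1] at hσ
          simp at hσ
        · apply A7_single
          · intro x hx y hy
            rw [mem_singleton] at hx hy
            subst hx
            subst hy
            exact Or.inl le_rfl
          · intro x hx
            rw [mem_singleton] at hx
            subst hx
            exact hs σ
        · exact A7_zero _)
  -- the right side
  have hT : ∀ σ ∈ F, ((fs f + cs s) (Finsupp.single σ (1 : ZMod 2))) σ =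
      if σ = {s} then 1 else 0 := by
    intro σ hσ
    obtain ⟨hσ1, hσ2⟩ := hF σ hσ
    rw [LinearMap.add_apply, Finsupp.add_apply, A7_fs, A7_cs]
    have e1 : (if (σ.image f).card = σ.card then Finsupp.single (σ.image f) (1 : ZMod 2) else 0) σ
        = (0 : ZMod 2) := by
      split_ifs
      · rw [Finsupp.single_apply, if_neg (hne σ hσ1 hσ2)]
      · rfl
    rw [e1, zero_add, if_neg (by
      rw [Finset.card_eq_zero]
      exact hσ1.ne_empty)]
    by_cases hc : σ.card = 1
    · rw [if_pos hc, Finsupp.single_apply]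
      by_cases h3 : σ = {s}
      · rw [if_pos h3, if_pos h3.symm]
      · rw [if_neg h3, if_neg (fun h => h3 h.symm)]
    · rw [if_neg hc, if_neg]
      · rfl
      · intro h3
        rw [h3] at hc
        exact hc (Finset.card_singleton s)
  have hR : ∑ σ ∈ F, ((fs f + cs s) (Finsupp.single σ (1 : ZMod 2))) σ = 1 := by
    rw [Finset.sum_congr rfl hT, Finset.sum_ite_eq' F {s} (fun _ => (1 : ZMod 2)), if_pos hsF]
  -- the left side
  set hh' : Finset P → CC P := fun σ => h (Finsupp.single σ 1) with hhd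
  have hL1 : ∀ σ ∈ F, (bd (hh' σ)) σ = ∑ τ ∈ F, hh' σ τ * A7_c σ τ := by
    intro σ hσ
    obtain ⟨hσ1, hσ2⟩ := hF σ hσ
    rw [A7_bd]
    have e1 : ∑ τ ∈ (hh' σ).support, hh' σ τ * A7_c σ τ =
        ∑ τ ∈ (hh' σ).support ∪ F, hh' σ τ * A7_c σ τ := by
      apply Finset.sum_subset subset_union_left
      intro τ _ hτ
      rw [Finsupp.notMem_support_iff] at hτ
      rw [hτ, zero_mul]
    have e2 : ∑ τ ∈ F, hh' σ τ * A7_c σ τ =
        ∑ τ ∈ (hh' σ).support ∪ F, hh' σ τ * A7_c σ τ := by
      apply Finset.sum_subset subset_union_right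
      intro τ hτ1 hτ2
      by_contra hne0
      have k1 : hh' σ τ ≠ 0 := left_ne_zero_of_mul hne0
      have k2 : A7_c σ τ ≠ 0 := right_ne_zero_of_mul hne0
      obtain ⟨k3, k4⟩ := A7_c_ne _ _ k2
      obtain ⟨k5, k6⟩ := (hh σ hσ1 hσ2).1 τ (Finsupp.mem_support_iff.2 k1)
      exact hτ2 ((hiff σ τ ⟨hσ1, k5, k3, k4, k6⟩).1 hσ)
    rw [e1, e2]
  have hL2 : ∀ σ ∈ F, (h (bd (Finsupp.single σ 1))) σ = ∑ ρ ∈ F, hh' ρ σ * A7_c ρ σ := by
    intro σ hσ
    obtain ⟨hσ1, hσ2⟩ := hF σ hσ
    rw [A7_bd_single, map_sum, Finsupp.finsetSum_apply]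
    unfold A7_c
    simp only [Finset.mul_sum]
    rw [Finset.sum_comm]
    apply Finset.sum_congr rfl
    intro x hx
    simp only [mul_ite, mul_one, mul_zero]
    rw [Finset.sum_ite_eq F (σ.erase x) (fun ρ => hh' ρ σ)]
    split_ifs with hmem
    · rfl
    · by_contra hne0
      have hne1 : hh' (σ.erase x) σ ≠ 0 := hne0
      have k0 : (σ.erase x).Nonempty := by
        rw [Finset.nonempty_iff_ne_empty]
        intro he
        apply hne1
        rw [hhd]
        simp only
        rw [he, hh0]
        rfl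
      have k1 : Ch (σ.erase x) := fun u hu v hv =>
        hσ2 u (Finset.mem_of_mem_erase hu) v (Finset.mem_of_mem_erase hv)
      obtain ⟨k5, k6⟩ := (hh _ k0 k1).1 σ (Finsupp.mem_support_iff.2 hne1)
      apply hmem
      refine (hiff (σ.erase x) σ ⟨k0, k5, Finset.erase_subset _ _, ?_, k6⟩).2 hσ
      rw [Finset.card_erase_of_mem hx]
      have := Finset.card_pos.2 ⟨x, hx⟩
      omega
  have hsum : ∑ σ ∈ F, ((bd (hh' σ)) σ + (h (bd (Finsupp.single σ 1))) σ) = 1 := by
    refine Eq.trans ?_ hR
    apply Finset.sum_congr rfl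
    intro σ hσ
    obtain ⟨hσ1, hσ2⟩ := hF σ hσ
    rw [← (hh σ hσ1 hσ2).2, Finsupp.add_apply]
  rw [Finset.sum_add_distrib, Finset.sum_congr rfl hL1, Finset.sum_congr rfl hL2,
    Finset.sum_comm, hZ2] at hsum
  exact absurd hsum (by decide)

end Pool.Agent.H444R2.SE
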