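import Pool.Agent.H444R2.SE.Defs

set_option autoImplicit false

namespace Pool.Agent.H444R2.SE

open Finset

theorem mem_Kc_444 {P : Type} [PartialOrder P] (s : P) (f : P → P)
    (E : P → Prop) (a b : P → P) (c : P → P → P) (σ : Finset P) (y : P) :
    y ∈ Kc s f E a b c σ ↔ (y = s ∨ (∃ x ∈ σ, f x = y) ∨ (∃ e ∈ σ, E e ∧ a e = y) ∨
      (∃ d ∈ σ, ¬ E d ∧ b d = y) ∨
      (∃ e ∈ σ, ∃ d ∈ σ, E e ∧ ¬ E d ∧ e < d ∧ c e d = y)) := by
  classical
  unfold Kc
  constructor
  · intro h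
    rw [mem_insert] at h
    rcases h with h | h
    · exact Or.inl h
    · rw [mem_union, mem_union, mem_union] at h
      rcases h with ((h | h) | h) | h
      · rw [mem_image] at h
        exact Or.inr (Or.inl h)
      · rw [mem_image] at h
        obtain ⟨e, he, h⟩ := h
        rw [mem_filter] at he
        exact Or.inr (Or.inr (Or.inl ⟨e, he.1, he.2, h⟩))
      · rw [mem_image] at h
        obtain ⟨e, he, h⟩ := h
        rw [mem_filter] at he
        exact Or.inr (Or.inr (Or.inr (Or.inl ⟨e, he.1, he.2, h⟩)))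
      · rw [mem_image] at h
        obtain ⟨p, hp, h⟩ := h
        rw [mem_filter, mem_product] at hp
        exact Or.inr (Or.inr (Or.inr (Or.inr
          ⟨p.1, hp.1.1, p.2, hp.1.2, hp.2.1, hp.2.2.1, hp.2.2.2, h⟩)))
  · intro h
    rw [mem_insert, mem_union, mem_union, mem_union]
    rcases h with h | ⟨x, hx, h⟩ | ⟨e, he, hE, h⟩ | ⟨d, hd, hE, h⟩ | ⟨e, he, d, hd, hE, hD, hl, h⟩
    · exact Or.inl h
    · exact Or.inr (Or.inl (Or.inl (Or.inl (mem_image.2 ⟨x, hx, h⟩))))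
    · exact Or.inr (Or.inl (Or.inl (Or.inr (mem_image.2 ⟨e, mem_filter.2 ⟨he, hE⟩, h⟩))))
    · exact Or.inr (Or.inl (Or.inr (mem_image.2 ⟨d, mem_filter.2 ⟨hd, hE⟩, h⟩)))
    · exact Or.inr (Or.inr (mem_image.2 ⟨(e, d), mem_filter.2 ⟨mem_product.2 ⟨he, hd⟩,
        hE, hD, hl⟩, h⟩))

theorem t_B1 (h2 : S_A2) (h4 : S_A4) (h4b : S_A4b) : S_B1 := by
  classical
  intro P _ _ s f E a b c H
  refine ⟨?_, ?_⟩
  · intro ρ σ h y hy
    rw [mem_Kc_444] at hy ⊢
    rcases hy with hy | ⟨x, hx, hy⟩ | ⟨e, he, hE, hy⟩ | ⟨d, hd, hE, hy⟩ |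
      ⟨e, he, d, hd, hE, hD, hl, hy⟩
    · exact Or.inl hy
    · exact Or.inr (Or.inl ⟨x, h hx, hy⟩)
    · exact Or.inr (Or.inr (Or.inl ⟨e, h he, hE, hy⟩))
    · exact Or.inr (Or.inr (Or.inr (Or.inl ⟨d, h hd, hE, hy⟩)))
    · exact Or.inr (Or.inr (Or.inr (Or.inr ⟨e, h he, d, h hd, hE, hD, hl, hy⟩)))
  intro σ hσ
  -- basic facts
  have has : ∀ e, E e → s ≤ a e := fun e he => (H.ha e he).1 (by simp)
  have haf : ∀ e, E e → f e ≤ a e := fun e he => (H.ha e he).1 (by simp)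
  have hau : ∀ e, E e → ∀ z, s ≤ z → f e ≤ z → a e ≤ z := by
    intro e he z hz1 hz2
    refine (H.ha e he).2 ?_
    intro w hw
    simp only [Set.mem_insert_iff, Set.mem_singleton_iff] at hw
    rcases hw with hw | hw
    · rw [hw]; exact hz1
    · rw [hw]; exact hz2
  have hbs : ∀ d, ¬ E d → b d ≤ s := fun d hd => (H.hb d hd).1 (by simp)
  have hbf : ∀ d, ¬ E d → b d ≤ f d := fun d hd => (H.hb d hd).1 (by simp)
  have hbl : ∀ d, ¬ E d → ∀ x, x ≤ s → x ≤ f d → x ≤ b d := by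
    intro d hd x hx1 hx2
    refine (H.hb d hd).2 ?_
    intro w hw
    simp only [Set.mem_insert_iff, Set.mem_singleton_iff] at hw
    rcases hw with hw | hw
    · rw [hw]; exact hx1
    · rw [hw]; exact hx2
  have hcb : ∀ e d, E e → ¬ E d → e < d → b d ≤ c e d :=
    fun e d he hd hl => (H.hc e d he hd hl).1 (by simp)
  have hcf : ∀ e d, E e → ¬ E d → e < d → f e ≤ c e d :=
    fun e d he hd hl => (H.hc e d he hd hl).1 (by simp)
  have hcu : ∀ e d, E e → ¬ E d → e < d → ∀ z, b d ≤ z → f e ≤ z → c e d ≤ z := by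
    intro e d he hd hl z hz1 hz2
    refine (H.hc e d he hd hl).2 ?_
    intro w hw
    simp only [Set.mem_insert_iff, Set.mem_singleton_iff] at hw
    rcases hw with hw | hw
    · rw [hw]; exact hz1
    · rw [hw]; exact hz2
  -- K0
  have hK0 : ∃ K0 : Finset P, ∀ y, y ∈ K0 ↔ (y = s ∨ ∃ e ∈ σ, E e ∧ a e = y) := by
    refine ⟨insert s ((σ.filter E).image a), ?_⟩
    intro y
    rw [mem_insert, mem_image]
    constructor
    · rintro (h | ⟨e, he, h⟩)
      · exact Or.inl h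
      · rw [mem_filter] at he
        exact Or.inr ⟨e, he.1, he.2, h⟩
    · rintro (h | ⟨e, he, hE, h⟩)
      · exact Or.inl h
      · exact Or.inr ⟨e, mem_filter.2 ⟨he, hE⟩, h⟩
  obtain ⟨K0, hK0⟩ := hK0
  have hK1 : ∃ K1 : Finset P, ∀ y, y ∈ K1 ↔ (y = s ∨ (∃ e ∈ σ, E e ∧ a e = y) ∨
      (∃ e ∈ σ, E e ∧ f e = y) ∨ (∃ d ∈ σ, ¬ E d ∧ b d = y) ∨
      (∃ e ∈ σ, ∃ d ∈ σ, E e ∧ ¬ E d ∧ e < d ∧ c e d = y)) := by
    refine ⟨(Kc s f E a b c σ).filter (fun y => (y = s ∨ (∃ e ∈ σ, E e ∧ a e = y) ∨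
      (∃ e ∈ σ, E e ∧ f e = y) ∨ (∃ d ∈ σ, ¬ E d ∧ b d = y) ∨
      (∃ e ∈ σ, ∃ d ∈ σ, E e ∧ ¬ E d ∧ e < d ∧ c e d = y))), ?_⟩
    intro y
    rw [mem_filter]
    constructor
    · exact fun h => h.2
    · intro h
      refine ⟨?_, h⟩
      rw [mem_Kc_444]
      rcases h with h | h | ⟨e, he, hE, h⟩ | h | h
      · exact Or.inl h
      · exact Or.inr (Or.inr (Or.inl h))
      · exact Or.inr (Or.inl ⟨e, he, h⟩)
      · exact Or.inr (Or.inr (Or.inr (Or.inl h)))
      · exact Or.inr (Or.inr (Or.inr (Or.inr h)))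
  obtain ⟨K1, hK1⟩ := hK1
  have hKK : ∀ y, y ∈ Kc s f E a b c σ ↔ (y ∈ K1 ∨ ∃ d ∈ σ, ¬ E d ∧ f d = y) := by
    intro y
    rw [mem_Kc_444, hK1]
    constructor
    · rintro (h | ⟨x, hx, h⟩ | h | h | h)
      · exact Or.inl (Or.inl h)
      · by_cases hE : E x
        · exact Or.inl (Or.inr (Or.inr (Or.inl ⟨x, hx, hE, h⟩)))
        · exact Or.inr ⟨x, hx, hE, h⟩
      · exact Or.inl (Or.inr (Or.inl h))
      · exact Or.inl (Or.inr (Or.inr (Or.inr (Or.inl h))))
      · exact Or.inl (Or.inr (Or.inr (Or.inr (Or.inr h))))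
    · rintro ((h | h | ⟨e, he, hE, h⟩ | h | h) | ⟨d, hd, hE, h⟩)
      · exact Or.inl h
      · exact Or.inr (Or.inr (Or.inl h))
      · exact Or.inr (Or.inl ⟨e, he, h⟩)
      · exact Or.inr (Or.inr (Or.inr (Or.inl h)))
      · exact Or.inr (Or.inr (Or.inr (Or.inr h)))
      · exact Or.inr (Or.inl ⟨d, hd, h⟩)
  have hac0 : Acyc K0 := by
    refine h2 P K0 s ((hK0 s).2 (Or.inl rfl)) ?_
    intro y hy
    rw [hK0] at hy
    rcases hy with h | ⟨e, he, hE, h⟩
    · exact Or.inl h.le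
    · exact Or.inr (h ▸ has e hE)
  have hK0s : ∀ z ∈ K0, s ≤ z := by
    intro z hz
    rw [hK0] at hz
    rcases hz with h | ⟨e, he, hE, h⟩
    · exact h.ge
    · exact h ▸ has e hE
  have hac1 : Acyc K1 := by
    refine h4 P K1 K0 ?_ ?_ hac0
    · intro y hy
      rw [hK0] at hy
      rw [hK1]
      rcases hy with h | h
      · exact Or.inl h
      · exact Or.inr (Or.inl h)
    · intro y hy hy0
      have key : ∃ t ∈ K0, y ≤ t ∧ ∀ z ∈ K0, y ≤ z → t ≤ z := by
        rw [hK1] at hy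
        rcases hy with h | h | ⟨e, he, hE, h⟩ | ⟨d, hd, hE, h⟩ | ⟨e, he, d, hd, hE, hD, hl, h⟩
        · exact absurd ((hK0 y).2 (Or.inl h)) hy0
        · exact absurd ((hK0 y).2 (Or.inr h)) hy0
        · refine ⟨a e, (hK0 _).2 (Or.inr ⟨e, he, hE, rfl⟩), h ▸ haf e hE, ?_⟩
          intro z hz hyz
          exact hau e hE z (hK0s z hz) (h ▸ hyz)
        · refine ⟨s, (hK0 _).2 (Or.inl rfl), h ▸ hbs d hE, ?_⟩
          intro z hz hyz
          exact hK0s z hz
        · refine ⟨a e, (hK0 _).2 (Or.inr ⟨e, he, hE, rfl⟩), ?_, ?_⟩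
          · rw [← h]
            exact hcu e d hE hD hl _ ((hbs d hD).trans (has e hE)) (haf e hE)
          · intro z hz hyz
            refine hau e hE z (hK0s z hz) ?_
            exact (hcf e d hE hD hl).trans (h ▸ hyz)
      obtain ⟨t, ht, hyt, hz⟩ := key
      refine ⟨t, ht, lt_of_le_of_ne hyt ?_, hz⟩
      intro h
      exact hy0 (h ▸ ht)
  -- facts about the chain
  have hfact : ∀ e ∈ σ, ∀ d ∈ σ, E e → ¬ E d → f e ≤ f d → e < d := by
    intro e he d hd hE hD hle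
    rcases hσ e he d hd with h | h
    · refine lt_of_le_of_ne h ?_
      intro h'
      exact hD (h' ▸ hE)
    · exfalso
      have h1 : f d ≤ f e := H.mono h
      have h3 : f d = f e := le_antisymm h1 hle
      exact H.hE e hE ⟨b d, h3 ▸ H.hb d hD⟩
  refine h4b P _ K1 ?_ ?_ hac1
  · intro y hy
    rw [hKK]
    exact Or.inl hy
  · intro y hy hy1
    have key : ∃ t ∈ K1, t ≤ y ∧ ∀ z ∈ K1, z ≤ y → z ≤ t := by
      rw [hKK] at hy
      rcases hy with h | ⟨d, hd, hD, h⟩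
      · exact absurd h hy1
      subst h
      by_cases hex : ∃ e ∈ σ, E e ∧ e < d
      · -- largest e
        obtain ⟨e, he, hE, hl, hmax⟩ : ∃ e ∈ σ, E e ∧ e < d ∧
            ∀ e' ∈ σ, E e' → e' < d → e' ≤ e := by
          have hne : (σ.filter (fun e => E e ∧ e < d)).Nonempty := by
            obtain ⟨e, he, hE, hl⟩ := hex
            exact ⟨e, mem_filter.2 ⟨he, hE, hl⟩⟩
          obtain ⟨e, he⟩ := (σ.filter (fun e => E e ∧ e < d)).exists_maximal hne
          have hem := mem_filter.1 he.1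
          refine ⟨e, hem.1, hem.2.1, hem.2.2, ?_⟩
          intro e' he' hE' hl'
          rcases hσ e' he' e hem.1 with h | h
          · exact h
          · exact he.2 (mem_filter.2 ⟨he', hE', hl'⟩) h
        refine ⟨c e d, (hK1 _).2 (Or.inr (Or.inr (Or.inr (Or.inr
          ⟨e, he, d, hd, hE, hD, hl, rfl⟩)))), ?_, ?_⟩
        · exact hcu e d hE hD hl _ (hbf d hD) (H.mono hl.le)
        · intro z hz hzy
          rw [hK1] at hz
          rcases hz with h | ⟨e', he', hE', h⟩ | ⟨e', he', hE', h⟩ | ⟨d', hd', hD', h⟩ |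
            ⟨e', he', d', hd', hE', hD', hl', h⟩
          · subst h
            exact (hbl d hD _ le_rfl hzy).trans (hcb e d hE hD hl)
          · subst h
            have h1 : s ≤ b d := hbl d hD s le_rfl ((has e' hE').trans hzy)
            have h3 : e' < d := hfact e' he' d hd hE' hD ((haf e' hE').trans hzy)
            refine hau e' hE' _ (h1.trans (hcb e d hE hD hl)) ?_
            exact (H.mono (hmax e' he' hE' h3)).trans (hcf e d hE hD hl)
          · subst h
            have h3 : e' < d := hfact e' he' d hd hE' hD hzy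
            exact (H.mono (hmax e' he' hE' h3)).trans (hcf e d hE hD hl)
          · subst h
            exact (hbl d hD _ (hbs d' hD') hzy).trans (hcb e d hE hD hl)
          · subst h
            have h3 : e' < d := hfact e' he' d hd hE' hD ((hcf e' d' hE' hD' hl').trans hzy)
            refine hcu e' d' hE' hD' hl' _ ?_ ?_
            · exact (hbl d hD _ (hbs d' hD') ((hcb e' d' hE' hD' hl').trans hzy)).trans
                (hcb e d hE hD hl)
            · exact (H.mono (hmax e' he' hE' h3)).trans (hcf e d hE hD hl)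
      · refine ⟨b d, (hK1 _).2 (Or.inr (Or.inr (Or.inr (Or.inl ⟨d, hd, hD, rfl⟩)))),
          hbf d hD, ?_⟩
        intro z hz hzy
        rw [hK1] at hz
        rcases hz with h | ⟨e', he', hE', h⟩ | ⟨e', he', hE', h⟩ | ⟨d', hd', hD', h⟩ |
          ⟨e', he', d', hd', hE', hD', hl', h⟩
        · subst h
          exact hbl d hD _ le_rfl hzy
        · subst h
          exact absurd ⟨e', he', hE', hfact e' he' d hd hE' hD ((haf e' hE').trans hzy)⟩ hex
        · subst h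
          exact absurd ⟨e', he', hE', hfact e' he' d hd hE' hD hzy⟩ hex
        · subst h
          exact hbl d hD _ (hbs d' hD') hzy
        · subst h
          exact absurd ⟨e', he', hE', hfact e' he' d hd hE' hD
            ((hcf e' d' hE' hD' hl').trans hzy)⟩ hex
    obtain ⟨t, ht, hyt, hz⟩ := key
    refine ⟨t, ht, lt_of_le_of_ne hyt ?_, hz⟩
    intro h
    exact hy1 (h ▸ ht)

end Pool.Agent.H444R2.SE
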