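import Pool.Agent.H444R2.SE.B1

set_option autoImplicit false

namespace Pool.Agent.H444R2.SE

open Finset

theorem t_B2x : S_B2 := by
  classical
  intro P _ s f E a b c H σ τ hR t ht
  obtain ⟨hne, hτ, hsub, hcard, hK⟩ := hR
  have h1 := hK ht
  rw [mem_Kc_444] at h1
  rcases h1 with h | ⟨x, hx, h⟩ | ⟨e, he, hE, h⟩ | ⟨d, hd, hD, h⟩ | ⟨e, he, d, hd, hE, hD, hl, h⟩
  · exact Or.inl h
  · exfalso
    rcases hτ x (hsub hx) t ht with h' | h'
    · exact H.inc1 x (h ▸ h')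
    · exact H.inc2 x (h ▸ h')
  · refine Or.inr (Or.inr (Or.inl ⟨e, he, hE, ?_, h.symm⟩))
    have hfa : f e ≤ t := h ▸ (H.ha e hE).1 (by simp)
    rcases hτ e (hsub he) t ht with h' | h'
    · refine lt_of_le_of_ne h' ?_
      intro h''
      exact H.inc2 e (h''.symm ▸ hfa)
    · exact absurd (hfa.trans h') (H.inc2 e)
  · exact Or.inr (Or.inl ⟨d, hd, hD, h.symm⟩)
  · refine Or.inr (Or.inr (Or.inr ⟨e, he, d, hd, hE, hD, hl, ?_, h.symm⟩))
    have hfa : f e ≤ t := h ▸ (H.hc e d hE hD hl).1 (by simp)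
    rcases hτ e (hsub he) t ht with h' | h'
    · refine lt_of_le_of_ne h' ?_
      intro h''
      exact H.inc2 e (h''.symm ▸ hfa)
    · exact absurd (hfa.trans h') (H.inc2 e)

end Pool.Agent.H444R2.SE
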