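import Pool.Agent.H444R2.SE.Defs

set_option autoImplicit false

/-! B3 (helper196): finitely many chains for every label. -/

namespace Pool.Agent.H444R2.SE

open Finset

open Classical in
/-- the least upper bound of `m` and `f t`, if it exists -/
noncomputable def B3_J {P : Type} [PartialOrder P] (s : P) (f : P → P) (m t : P) : P :=
  if h : ∃ z, IsLUB ({m, f t} : Set P) z then h.choose else s

open Classical in
noncomputable def B3_T {P : Type} [PartialOrder P] (s : P) (f a : P → P) (B : Finset P) :
    ℕ → Finset P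
  | 0 => insert s B
  | q + 1 => B3_T s f a B q ∪ (B3_T s f a B q).image a ∪
      (B ×ˢ B3_T s f a B q).image (fun p => B3_J s f p.1 p.2)

theorem B3_mono {P : Type} [PartialOrder P] (s : P) (f a : P → P) (B : Finset P) (q : ℕ) :
    insert s (B : Set P) ⊆ (B3_T s f a B q : Set P) := by
  induction q with
  | zero => intro x hx; simpa [B3_T] using hx
  | succ q ih =>
    intro x hx
    have := ih hx
    simp only [B3_T, coe_union, Set.mem_union]
    exact Or.inl (Or.inl this)

theorem B3_eq {P : Type} [PartialOrder P] (s : P) (f : P → P) (m t z : P)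
    (h : IsLUB ({m, f t} : Set P) z) : B3_J s f m t = z := by
  unfold B3_J
  have hex : ∃ z, IsLUB ({m, f t} : Set P) z := ⟨z, h⟩
  rw [dif_pos hex]
  exact hex.choose_spec.unique h

theorem t_B3 (h2 : S_B2) : S_B3 := by
  classical
  intro P _ N s f E a b c hN hSP B
  have key : ∀ σ τ : Finset P, Rl (Kc s f E a b c) σ τ → Bl E b σ ⊆ B → ∀ q : ℕ, ∀ t ∈ τ,
      (τ.filter (fun x => x < t)).card ≤ q → t ∈ B3_T s f a B q := by
    intro σ τ hR hB q
    have hsub : σ ⊆ τ := hR.2.2.1
    have hbd : ∀ d ∈ σ, ¬ E d → b d ∈ B := by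
      intro d hd hEd
      apply hB
      unfold Bl
      exact mem_image.2 ⟨d, mem_filter.2 ⟨hd, hEd⟩, rfl⟩
    have hlow : ∀ e ∈ τ, ∀ t ∈ τ, e < t →
        (τ.filter (fun x => x < e)).card < (τ.filter (fun x => x < t)).card := by
      intro e he t _ het
      apply card_lt_card
      rw [Finset.ssubset_iff_of_subset]
      · exact ⟨e, mem_filter.2 ⟨he, het⟩, fun hh => lt_irrefl _ (mem_filter.1 hh).2⟩
      · intro x hx
        rw [mem_filter] at hx ⊢
        exact ⟨hx.1, hx.2.trans het⟩
    induction q with
    | zero =>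
      intro t ht hc
      rcases h2 P s f E a b c hSP σ τ hR t ht with h | ⟨d, hd, hEd, h⟩ | ⟨e, he, _, het, _⟩ |
        ⟨e, he, d, _, _, _, _, het, _⟩
      · exact B3_mono s f a B 0 (Or.inl h)
      · exact B3_mono s f a B 0 (Or.inr (by rw [h]; exact hbd d hd hEd))
      · have := hlow e (hsub he) t ht het
        omega
      · have := hlow e (hsub he) t ht het
        omega
    | succ q ih =>
      intro t ht hc
      rcases h2 P s f E a b c hSP σ τ hR t ht with h | ⟨d, hd, hEd, h⟩ | ⟨e, he, _, het, h⟩ |
        ⟨e, he, d, hd, hEe, hEd, hed, het, h⟩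
      · exact B3_mono s f a B (q + 1) (Or.inl h)
      · exact B3_mono s f a B (q + 1) (Or.inr (by rw [h]; exact hbd d hd hEd))
      · have h3 := hlow e (hsub he) t ht het
        have h4 := ih e (hsub he) (by omega)
        rw [h]
        simp only [B3_T, mem_union]
        exact Or.inl (Or.inr (mem_image_of_mem _ h4))
      · have h3 := hlow e (hsub he) t ht het
        have h4 := ih e (hsub he) (by omega)
        have h5 : B3_J s f (b d) e = t := by
          rw [h]
          exact B3_eq s f (b d) e _ (hSP.hc e d hEe hEd hed)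
        simp only [B3_T, mem_union]
        right
        rw [mem_image]
        exact ⟨(b d, e), mem_product.2 ⟨hbd d hd hEd, h4⟩, h5⟩
  apply ((B3_T s f a B N).powerset : Set (Finset P)).toFinite.subset
  rintro τ ⟨σ, hR, hB⟩
  rw [mem_coe, mem_powerset]
  intro t ht
  apply key σ τ hR hB N t ht
  exact (card_filter_le _ _).trans (hN τ hR.2.1)

end Pool.Agent.H444R2.SE
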