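import Pool.Agent.H444R2.SE.Defs

set_option autoImplicit false

/-! Task B4: the function `β`. -/

namespace Pool.Agent.H444R2.SE

open Finset

namespace B4

variable {P : Type} [PartialOrder P] {s : P} {f : P → P} {E : P → Prop} {a b : P → P}
  {c : P → P → P}

theorem s_le_a (h : SP s f E a b c) {e : P} (he : E e) : s ≤ a e :=
  (h.ha e he).1 (by simp)

theorem f_le_a (h : SP s f E a b c) {e : P} (he : E e) : f e ≤ a e :=
  (h.ha e he).1 (by simp)

theorem a_le (h : SP s f E a b c) {e z : P} (he : E e) (h1 : s ≤ z) (h2 : f e ≤ z) : a e ≤ z :=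
  (h.ha e he).2 (by
    rintro x (rfl | hx)
    · exact h1
    · rw [Set.mem_singleton_iff] at hx
      rw [hx]
      exact h2)

theorem b_le_s (h : SP s f E a b c) {d : P} (hd : ¬ E d) : b d ≤ s :=
  (h.hb d hd).1 (by simp)

theorem b_le_f (h : SP s f E a b c) {d : P} (hd : ¬ E d) : b d ≤ f d :=
  (h.hb d hd).1 (by simp)

theorem le_b (h : SP s f E a b c) {d z : P} (hd : ¬ E d) (h1 : z ≤ s) (h2 : z ≤ f d) : z ≤ b d :=
  (h.hb d hd).2 (by
    rintro x (rfl | hx)
    · exact h1
    · rw [Set.mem_singleton_iff] at hx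
      rw [hx]
      exact h2)

theorem a_mono (h : SP s f E a b c) {x y : P} (hx : E x) (hy : E y) (hxy : x ≤ y) : a x ≤ a y :=
  a_le h hx (s_le_a h hy) ((h.mono hxy).trans (f_le_a h hy))

theorem b_mono (h : SP s f E a b c) {x y : P} (hx : ¬ E x) (hy : ¬ E y) (hxy : x ≤ y) :
    b x ≤ b y :=
  le_b h hy (b_le_s h hx) ((b_le_f h hx).trans (h.mono hxy))

theorem orbit_step (h : SP s f E a b c) {t : P} (ht : E t → t ≤ a t) : ∀ i : ℕ,
    (∀ j, j ≤ i → E (a^[j] t)) → a^[i] t ≤ a^[i + 1] t := by
  intro i
  induction i with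
  | zero => intro hE; exact ht (hE 0 le_rfl)
  | succ i ih =>
    intro hE
    rw [Function.iterate_succ_apply', Function.iterate_succ_apply' a (i + 1)]
    have h1 := ih (fun j hj => hE j (by omega))
    have h2 := a_mono h (hE i (by omega)) (hE (i + 1) le_rfl) h1
    exact h2

theorem orbit_mono (h : SP s f E a b c) {t : P} (ht : E t → t ≤ a t) {r : ℕ}
    (hE : ∀ j, j < r → E (a^[j] t)) (i j : ℕ) (hij : i ≤ j) (hj : j ≤ r) :
    a^[i] t ≤ a^[j] t := by
  induction j, hij using Nat.le_induction with
  | base => exact le_rfl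
  | succ j _ ih =>
    exact (ih (by omega)).trans (orbit_step h ht j (fun k hk => hE k (by omega)))

theorem exit (N : ℕ) (hN : Len P N) (h : SP s f E a b c) {t : P} (ht : E t → t ≤ a t) :
    ∃ r : ℕ, ¬ E (a^[r] t) := by
  classical
  by_contra hcon
  push Not at hcon
  have hs : StrictMono (fun i : ℕ => a^[i] t) := by
    apply strictMono_nat_of_lt_succ
    intro i
    refine lt_of_le_of_ne (orbit_step h ht i (fun j _ => hcon j)) (fun he => ?_)
    have he' : a^[i] t = a^[i + 1] t := he
    rw [Function.iterate_succ_apply'] at he'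
    apply h.inc2 (a^[i] t)
    have h2 := f_le_a h (hcon i)
    rwa [← he'] at h2
  have h1 := hN ((range (N + 1)).image (fun i : ℕ => a^[i] t)) (by
    intro x hx y hy
    obtain ⟨i, _, rfl⟩ := Finset.mem_image.1 hx
    obtain ⟨j, _, rfl⟩ := Finset.mem_image.1 hy
    rcases le_total i j with hij | hij
    · exact Or.inl (hs.monotone hij)
    · exact Or.inr (hs.monotone hij))
  rw [Finset.card_image_of_injective _ hs.injective, Finset.card_range] at h1
  omega

end B4

theorem t_B4 : S_B4 := by
  classical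
  intro P _ N s f E a b c hN h
  let β : P → P := fun t => if hr : ∃ r : ℕ, ¬ E (a^[r] t) then b (a^[Nat.find hr] t) else s
  have key : ∀ t : P, (E t → t ≤ a t) → ∃ r : ℕ, (∀ j, j < r → E (a^[j] t)) ∧
      ¬ E (a^[r] t) ∧ β t = b (a^[r] t) := by
    intro t ht
    have hr := B4.exit N hN h ht
    refine ⟨Nat.find hr, fun j hj => not_not.1 (Nat.find_min hr hj), Nat.find_spec hr, ?_⟩
    show (if hr : ∃ r : ℕ, ¬ E (a^[r] t) then b (a^[Nat.find hr] t) else s) = _
    rw [dif_pos hr]
  have key0 : ∀ t : P, ¬ E t → β t = b t := by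
    intro t ht
    have hr : ∃ r : ℕ, ¬ E (a^[r] t) := ⟨0, ht⟩
    have h0 : Nat.find hr = 0 := (Nat.find_eq_zero hr).2 ht
    show (if hr : ∃ r : ℕ, ¬ E (a^[r] t) then b (a^[Nat.find hr] t) else s) = _
    rw [dif_pos hr, h0]
    rfl
  refine ⟨β, key0, ?_, ?_⟩
  · intro t hEt ht
    obtain ⟨r, h1, h2, h3⟩ := key t (fun _ => ht)
    rw [h3]
    refine lt_of_le_of_ne (B4.b_le_s h h2) (fun hs => ?_)
    obtain ⟨k, rfl⟩ : ∃ k, r = k + 1 := by
      rcases Nat.eq_zero_or_pos r with hr | hr
      · rw [hr] at h2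
        exact absurd hEt h2
      · exact ⟨r - 1, by omega⟩
    have hx : E (a^[k] t) := h1 k (by omega)
    have hle : a^[k] t ≤ a^[k + 1] t :=
      B4.orbit_mono h (fun _ => ht) h1 k (k + 1) (by omega) le_rfl
    apply h.inc1 (a^[k + 1] t)
    have h4 : s ≤ f (a^[k + 1] t) := by
      have := B4.b_le_f h h2
      rwa [hs] at this
    have h5 := B4.a_le h hx h4 (h.mono hle)
    have h6 : a^[k + 1] t = a (a^[k] t) := Function.iterate_succ_apply' a k t
    calc a^[k + 1] t = a (a^[k] t) := h6
      _ ≤ f (a^[k + 1] t) := h5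
  · intro x y hxy hx hy hxa
    obtain ⟨r, hr1, hr2, hr3⟩ := key x hx
    obtain ⟨r', hr1', hr2', hr3'⟩ := key y hy
    rw [hr3, hr3']
    rcases Nat.eq_zero_or_pos r with h0 | h0
    · left
      subst h0
      apply B4.b_mono h hr2 hr2'
      exact le_trans hxy (B4.orbit_mono h hy hr1' 0 r' (Nat.zero_le _) le_rfl)
    · have hEx : E x := hr1 0 h0
      rcases Nat.lt_or_ge r' r with hlt | hge
      · right
        apply B4.b_mono h hr2' hr2
        have h7 : ∀ i, i ≤ r' → a^[i] y ≤ a^[i + 1] x := by
          intro i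
          induction i with
          | zero => intro _; exact hxa hEx
          | succ i ih =>
            intro hi
            have h8 := B4.a_mono h (hr1' i (by omega)) (hr1 (i + 1) (by omega)) (ih (by omega))
            rw [Function.iterate_succ_apply', Function.iterate_succ_apply' a (i + 1)]
            exact h8
        exact (h7 r' le_rfl).trans (B4.orbit_mono h hx hr1 (r' + 1) r (by omega) le_rfl)
      · left
        apply B4.b_mono h hr2 hr2'
        have h7 : ∀ i, i ≤ r → a^[i] x ≤ a^[i] y := by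
          intro i
          induction i with
          | zero => intro _; exact hxy
          | succ i ih =>
            intro hi
            have h8 := B4.a_mono h (hr1 i (by omega)) (hr1' i (by omega)) (ih (by omega))
            rw [Function.iterate_succ_apply', Function.iterate_succ_apply']
            exact h8
        exact (h7 r le_rfl).trans (B4.orbit_mono h hy hr1' r r' hge le_rfl)

end Pool.Agent.H444R2.SE
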