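import Pool.Agent.H444R2.SE.Defs

set_option autoImplicit false

namespace Pool.Agent.H444R2.SE

open Finset

theorem t_B5 (h2 : S_B2) : S_B5 := by
  intro P _ s f E a b c hS
  have hsa : ∀ e, E e → s ≤ a e := fun e he => (hS.ha e he).1 (by simp)
  have hfa : ∀ e, E e → f e ≤ a e := fun e he => (hS.ha e he).1 (by simp)
  have hla : ∀ e z, E e → s ≤ z → f e ≤ z → a e ≤ z := fun e z he h1 h3 =>
    (hS.ha e he).2 (by
      rintro x (rfl | rfl)
      · exact h1
      · exact h3)
  have haa : ∀ x y, E x → E y → x ≤ y → a x ≤ a y := fun x y hx hy hxy =>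
    hla x _ hx (hsa y hy) ((hS.mono hxy).trans (hfa y hy))
  have hbs : ∀ d, ¬ E d → b d ≤ s := fun d hd => (hS.hb d hd).1 (by simp)
  have hbf : ∀ d, ¬ E d → b d ≤ f d := fun d hd => (hS.hb d hd).1 (by simp)
  have hlc : ∀ e d z, E e → ¬ E d → e < d → b d ≤ z → f e ≤ z → c e d ≤ z :=
    fun e d z he hd hed h1 h3 => (hS.hc e d he hd hed).2 (by
      rintro x (rfl | rfl)
      · exact h1
      · exact h3)
  have hca : ∀ e d, E e → ¬ E d → e < d → c e d ≤ a e := fun e d he hd hed =>
    hlc e d _ he hd hed ((hbs d hd).trans (hsa e he)) (hfa e he)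
  refine ⟨?_, ?_⟩
  · intro hs
    refine lt_of_le_of_ne (hbs s hs) ?_
    intro h
    have := hbf s hs
    rw [h] at this
    exact hS.inc1 s this
  · intro σ τ hR
    have hB := h2 P s f E a b c hS σ τ hR
    refine ⟨?_, ?_, ?_, ?_⟩
    · intro t ht hE
      rcases hB t ht with h | ⟨d, hd, hdE, h⟩ | ⟨e, he, heE, het, h⟩ |
        ⟨e, he, d, hd, heE, hdE, hed, het, h⟩
      · subst h
        exact hsa _ hE
      · have := hbs d hdE
        rw [← h] at this
        exact this.trans (hsa t hE)
      · calc t = a e := h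
          _ ≤ a t := haa e t heE hE het.le
      · calc t = c e d := h
          _ ≤ a e := hca e d heE hdE hed
          _ ≤ a t := haa e t heE hE het.le
    · intro t ht hE
      refine lt_of_le_of_ne (hbs t hE) ?_
      intro hbt
      have hst : s ≤ f t := by
        have := hbf t hE
        rwa [hbt] at this
      apply hS.inc1 t
      rcases hB t ht with h | ⟨d, hd, hdE, h⟩ | ⟨e, he, heE, het, h⟩ |
        ⟨e, he, d, hd, heE, hdE, hed, het, h⟩
      · calc t = s := h
          _ ≤ f t := hst
      · calc t = b d := h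
          _ ≤ s := hbs d hdE
          _ ≤ f t := hst
      · calc t = a e := h
          _ ≤ f t := hla e _ heE hst (hS.mono het.le)
      · calc t = c e d := h
          _ ≤ f t := hlc e d _ heE hdE hed ((hbs d hdE).trans hst) (hS.mono het.le)
    · intro t ht t' ht' htt hE hx
      rcases hB t' ht' with h | ⟨d, hd, hdE, h⟩ | ⟨e, he, heE, het, h⟩ |
        ⟨e, he, d, hd, heE, hdE, hed, het, h⟩
      · calc t' = s := h
          _ ≤ a t := hsa t hE
      · calc t' = b d := h
          _ ≤ s := hbs d hdE
          _ ≤ a t := hsa t hE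
      · calc t' = a e := h
          _ ≤ a t := haa e t heE hE (hx e he het)
      · calc t' = c e d := h
          _ ≤ a e := hca e d heE hdE hed
          _ ≤ a t := haa e t heE hE (hx e he het)
    · intro t ht hx
      rcases hB t ht with h | ⟨d, hd, hdE, h⟩ | ⟨e, he, heE, het, h⟩ |
        ⟨e, he, d, hd, heE, hdE, hed, het, h⟩
      · exact h.le
      · calc t = b d := h
          _ ≤ s := hbs d hdE
      · exact absurd het (hx e he)
      · exact absurd het (hx e he)

end Pool.Agent.H444R2.SE
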