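import Pool.Agent.H444R2.SE.Defs

set_option autoImplicit false

/-! A wandering walk of cliques yields a ray. -/

namespace Pool.Agent.H444R2.SE

open Finset

/-- the graph restricted to the union of the cliques minus a finite set -/
def C1_H {V : Type} (G : SimpleGraph V) (B : ℕ → Finset V) (S : Finset V) : SimpleGraph V where
  Adj x y := G.Adj x y ∧ (∃ i, x ∈ B i) ∧ (∃ i, y ∈ B i) ∧ x ∉ S ∧ y ∉ S
  symm := ⟨fun _ _ h => ⟨h.1.symm, h.2.2.1, h.2.1, h.2.2.2.2, h.2.2.2.1⟩⟩
  loopless := ⟨fun x h => h.1.ne rfl⟩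

/-- `x` lies in the unbounded component outside of `S` -/
def C1_good {V : Type} (G : SimpleGraph V) (B : ℕ → Finset V) (S : Finset V) (x : V) : Prop :=
  x ∉ S ∧ (∃ j, x ∈ B j) ∧
    ∃ i0, ∀ i ≥ i0, ∀ y ∈ B i, y ∉ S → (C1_H G B S).Reachable x y

section

variable {V : Type} (G : SimpleGraph V) (B : ℕ → Finset V)
  (h1 : ∀ i, ∀ x ∈ B i, ∀ y ∈ B i, x ≠ y → G.Adj x y)
  (h2 : ∀ i, B i ⊆ B (i + 1) ∨ B (i + 1) ⊆ B i)
  (h3 : ∀ C : Finset V, {i | B i = C}.Finite)

include h3 in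
theorem C1_ev (S : Finset V) : ∃ i0, ∀ i ≥ i0, ∃ y ∈ B i, y ∉ S := by
  classical
  have hfin : {i | B i ⊆ S}.Finite := by
    have : {i | B i ⊆ S} = ⋃ C ∈ S.powerset, {i | B i = C} := by
      ext i
      simp
    rw [this]
    exact Set.Finite.biUnion (Finset.finite_toSet _) fun C _ => h3 C
  obtain ⟨M, hM⟩ := hfin.bddAbove
  refine ⟨M + 1, fun i hi => ?_⟩
  by_contra hcon
  push Not at hcon
  have : i ≤ M := hM (show B i ⊆ S from fun y hy => hcon y hy)
  omega

include h1 in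
theorem C1_clique (S : Finset V) (i : ℕ) (y z : V) (hy : y ∈ B i) (hz : z ∈ B i) (hyS : y ∉ S)
    (hzS : z ∉ S) : (C1_H G B S).Reachable y z := by
  by_cases h : y = z
  · subst h
    exact SimpleGraph.Reachable.refl _
  · exact SimpleGraph.Adj.reachable ⟨h1 i y hy z hz h, ⟨i, hy⟩, ⟨i, hz⟩, hyS, hzS⟩

include h1 h2 in
theorem C1_conn (S : Finset V) (i0 : ℕ) (h0 : ∀ i ≥ i0, ∃ y ∈ B i, y ∉ S) (i : ℕ) (hi : i0 ≤ i)
    (y : V) (hy : y ∈ B i) (hyS : y ∉ S) (j : ℕ) (hij : i ≤ j) :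
    ∀ z ∈ B j, z ∉ S → (C1_H G B S).Reachable y z := by
  induction j, hij using Nat.le_induction with
  | base =>
    intro z hz hzS
    exact C1_clique G B h1 S i y z hy hz hyS hzS
  | succ j hij ih =>
    intro z hz hzS
    obtain ⟨u, hu, huS⟩ := h0 j (by omega)
    refine (ih u hu huS).trans ?_
    rcases h2 j with h | h
    · exact C1_clique G B h1 S (j + 1) u z (h hu) hz huS hzS
    · exact C1_clique G B h1 S j u z hu (h hz) huS hzS

include h1 h2 h3 in
theorem C1_ex (S : Finset V) : ∃ y, C1_good G B S y := by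
  obtain ⟨i0, h0⟩ := C1_ev B h3 S
  obtain ⟨y, hy, hyS⟩ := h0 i0 le_rfl
  exact ⟨y, hyS, ⟨i0, hy⟩, i0, fun i hi z hz hzS =>
    C1_conn G B h1 h2 S i0 h0 i0 le_rfl y hy hyS i hi z hz hzS⟩

theorem C1_transfer (S : Finset V) (x : V) {u v : V} (q : (C1_H G B S).Walk u v) [DecidableEq V]
    (hx : x ∉ q.support) : (C1_H G B (insert x S)).Reachable u v := by
  induction q with
  | nil => exact SimpleGraph.Reachable.refl _
  | cons h q ih =>
    rw [SimpleGraph.Walk.support_cons, List.mem_cons, not_or] at hx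
    refine SimpleGraph.Reachable.trans ?_ (ih hx.2)
    have hv : x ≠ _ := fun hh => hx.2 (hh ▸ SimpleGraph.Walk.start_mem_support q)
    apply SimpleGraph.Adj.reachable
    refine ⟨h.1, h.2.1, h.2.2.1, ?_, ?_⟩
    · rw [mem_insert, not_or]
      exact ⟨Ne.symm hx.1, h.2.2.2.1⟩
    · rw [mem_insert, not_or]
      exact ⟨hv.symm, h.2.2.2.2⟩

include h1 h2 h3 in
theorem C1_step [DecidableEq V] (S : Finset V) (x : V) (hx : C1_good G B S x) :
    ∃ x', G.Adj x x' ∧ C1_good G B (insert x S) x' := by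
  obtain ⟨hxS, hxB, i1, hi1⟩ := hx
  obtain ⟨i0, h0⟩ := C1_ev B h3 (insert x S)
  obtain ⟨y, hy, hyS⟩ := h0 (max i0 i1) (le_max_left _ _)
  have hyS' : y ∉ S := fun h => hyS (mem_insert_of_mem h)
  have hyx : y ≠ x := fun h => hyS (h ▸ mem_insert_self _ _)
  obtain ⟨w⟩ := hi1 (max i0 i1) (le_max_right _ _) y hy hyS'
  have hp := w.toPath.2
  generalize (w.toPath : (C1_H G B S).Walk x y) = p at hp
  cases p with
  | nil => exact absurd rfl hyx
  | @cons _ v _ h q =>
    rw [SimpleGraph.Walk.cons_isPath_iff] at hp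
    have hr : (C1_H G B (insert x S)).Reachable v y := C1_transfer G B S x q hp.2
    have hvx : v ≠ x := fun hh => hp.2 (hh ▸ SimpleGraph.Walk.start_mem_support q)
    refine ⟨v, h.1, ?_, h.2.2.1, max i0 i1, ?_⟩
    · rw [mem_insert, not_or]
      exact ⟨hvx, h.2.2.2.2⟩
    · intro i hi z hz hzS
      exact hr.trans (C1_conn G B h1 h2 (insert x S) i0 h0 (max i0 i1) (le_max_left _ _) y hy hyS
        i hi z hz hzS)

end

theorem t_C1 : S_C1 := by
  classical
  intro V G B h1 h2 h3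
  obtain ⟨y0, hy0⟩ := C1_ex G B h1 h2 h3 ∅
  choose! nx hnx1 hnx2 using C1_step G B h1 h2 h3
  let F : ℕ → Finset V × V := fun n =>
    Nat.rec (∅, y0) (fun _ p => (insert p.2 p.1, nx p.1 p.2)) n
  have hF0 : F 0 = (∅, y0) := rfl
  have hFs : ∀ n, F (n + 1) = (insert (F n).2 (F n).1, nx (F n).1 (F n).2) := fun _ => rfl
  have hgood : ∀ n, C1_good G B (F n).1 (F n).2 := by
    intro n
    induction n with
    | zero => exact hy0
    | succ n ih =>
      rw [hFs]
      exact hnx2 _ _ ih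
  have hmono : ∀ n m, n < m → (F n).2 ∈ (F m).1 := by
    intro n m hnm
    induction m, hnm using Nat.le_induction with
    | base =>
      rw [hFs]
      exact mem_insert_self _ _
    | succ m _ ih =>
      rw [hFs]
      exact mem_insert_of_mem ih
  refine ⟨fun n => (F n).2, ?_, ?_, ?_⟩
  · intro n m hnm
    rcases lt_trichotomy n m with h | h | h
    · have h4 := hmono n m h
      have h5 : (F n).2 = (F m).2 := hnm
      rw [h5] at h4
      exact absurd h4 (hgood m).1
    · exact h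
    · have h4 := hmono m n h
      have h5 : (F n).2 = (F m).2 := hnm
      rw [← h5] at h4
      exact absurd h4 (hgood n).1
  · intro n
    show G.Adj (F n).2 (F (n + 1)).2
    rw [hFs]
    exact hnx1 _ _ (hgood n)
  · intro n
    exact (hgood n).2.1

end Pool.Agent.H444R2.SE
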