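import Pool.Agent.H444R2.SE.Defs

set_option autoImplicit false

/-! Labels are close to a fixed vertex. -/

namespace Pool.Agent.H444R2.SE

open Finset

theorem C2_adj {P : Type} [PartialOrder P] (s x y : P) (hx : x < s) (hy : y < s)
    (h : x ≤ y ∨ y ≤ x) : ∃ p : (cg s).Walk x y, p.length ≤ 1 := by
  by_cases hxy : x = y
  · subst hxy
    exact ⟨SimpleGraph.Walk.nil, by simp⟩
  · have hadj : (cg s).Adj x y := by
      refine ⟨hx, hy, ?_⟩
      rcases h with h | h
      · exact Or.inl (lt_of_le_of_ne h hxy)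
      · exact Or.inr (lt_of_le_of_ne h (Ne.symm hxy))
    exact ⟨SimpleGraph.Walk.cons hadj SimpleGraph.Walk.nil, by simp⟩

theorem t_C2 : S_C2 := by
  classical
  intro P _ N s f E a b c β hN hSP hbs hBet σ τ hRl hR5 t0 ht0 hEt0
  obtain ⟨B1, B2, B3⟩ := hBet
  obtain ⟨R1, R2, R3, R4⟩ := hR5
  have hst : σ ⊆ τ := hRl.2.2.1
  have hch : Ch τ := hRl.2.1
  have hsa : ∀ t, E t → s ≤ a t := fun t ht => (hSP.ha t ht).1 (by simp)
  have hβs : β s < s := by
    by_cases h : E s
    · exact B2 s h (hsa s h)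
    · rw [B1 s h]
      exact hbs h
  have hβt : ∀ t ∈ τ, β t < s := by
    intro t ht
    by_cases h : E t
    · exact B2 t h (R1 t ht h)
    · rw [B1 t h]
      exact R2 t ht h
  have key : ∀ (n : ℕ) (t : P), t ∈ τ → (τ.filter (fun x => x < t)).card = n →
      ∃ p : (cg s).Walk (β s) (β t), p.length ≤ (τ.filter (fun x => x ≤ t)).card := by
    intro n
    induction n using Nat.strong_induction_on with
    | _ n ih =>
      intro t ht hn
      by_cases hem : (τ.filter (fun x => x < t)).Nonempty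
      · obtain ⟨t', ht'⟩ := (τ.filter (fun x => x < t)).exists_maximal hem
        have ht'1 : t' ∈ τ := (mem_filter.1 ht'.1).1
        have ht'2 : t' < t := (mem_filter.1 ht'.1).2
        have hmax : ∀ x ∈ τ, x < t → x ≤ t' := by
          intro x hx hxt
          rcases hch x hx t' ht'1 with h | h
          · exact h
          · exact ht'.2 (mem_filter.2 ⟨hx, hxt⟩) h
        obtain ⟨p, hp⟩ := ih (τ.filter (fun x => x < t')).card (by
          rw [← hn]
          apply Finset.card_lt_card
          rw [Finset.ssubset_iff_of_subset (fun x hx => mem_filter.2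
            ⟨(mem_filter.1 hx).1, (mem_filter.1 hx).2.trans ht'2⟩)]
          exact ⟨t', ht'.1, fun h => lt_irrefl _ (mem_filter.1 h).2⟩) t' ht'1 rfl
        have hcomp : β t' ≤ β t ∨ β t ≤ β t' :=
          B3 t' t ht'2.le (fun h => R1 t' ht'1 h) (fun h => R1 t ht h)
            (fun h => R3 t' ht'1 t ht ht'2 h (fun x hx hxt => hmax x (hst hx) hxt))
        obtain ⟨q, hq⟩ := C2_adj s (β t') (β t) (hβt t' ht'1) (hβt t ht) hcomp
        refine ⟨p.append q, ?_⟩
        rw [SimpleGraph.Walk.length_append]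
        have hlt : (τ.filter (fun x => x ≤ t')).card < (τ.filter (fun x => x ≤ t)).card := by
          apply Finset.card_lt_card
          rw [Finset.ssubset_iff_of_subset (fun x hx => mem_filter.2
            ⟨(mem_filter.1 hx).1, (mem_filter.1 hx).2.trans ht'2.le⟩)]
          refine ⟨t, mem_filter.2 ⟨ht, le_rfl⟩, fun h => ?_⟩
          exact absurd ((mem_filter.1 h).2.trans_lt ht'2) (lt_irrefl _)
        omega
      · have hno : ∀ x ∈ τ, ¬ x < t := fun x hx h => hem ⟨x, mem_filter.2 ⟨hx, h⟩⟩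
        have hts : t ≤ s := R4 t ht (fun x hx => hno x (hst hx))
        have hcomp : β t ≤ β s ∨ β s ≤ β t :=
          B3 t s hts (fun h => R1 t ht h) (fun h => hsa s h) (fun h => hsa t h)
        obtain ⟨q, hq⟩ := C2_adj s (β s) (β t) hβs (hβt t ht) hcomp.symm
        refine ⟨q, hq.trans ?_⟩
        exact Finset.card_pos.2 ⟨t, mem_filter.2 ⟨ht, le_rfl⟩⟩
  obtain ⟨p, hp⟩ := key _ t0 ht0 rfl
  refine ⟨p.copy rfl (B1 t0 hEt0), ?_⟩
  rw [SimpleGraph.Walk.length_copy]
  exact hp.trans ((Finset.card_filter_le _ _).trans (hN τ hch))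

end Pool.Agent.H444R2.SE
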