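import Pool.Agent.H444R2.SE.Defs

set_option autoImplicit false

/-! D0 (helper196): recursion for the stack of a chain. -/

namespace Pool.Agent.H444R2.SE

open Finset

theorem D0_mx {P : Type} [PartialOrder P] [DecidableEq P] (s : P) (σ : Finset P) (t : P)
    (h : ∀ x ∈ σ, x < t) : mx s (insert t σ) = t := by
  unfold mx
  have hex : ∃ t' ∈ insert t σ, ∀ x ∈ insert t σ, x ≤ t' := by
    refine ⟨t, mem_insert_self _ _, fun x hx => ?_⟩
    rcases mem_insert.1 hx with rfl | hx
    · exact le_rfl
    · exact (h x hx).le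
  rw [dif_pos hex]
  obtain ⟨h1, h2⟩ := hex.choose_spec
  rcases mem_insert.1 h1 with h3 | h3
  · exact h3
  · exact absurd (h _ h3) (not_lt_of_ge (h2 t (mem_insert_self _ _)))

theorem t_D0 : S_D0 := by
  intro P _ _ β s
  constructor
  · rfl
  · intro σ t h
    have hnot : t ∉ σ := fun ht => lt_irrefl _ (h t ht)
    unfold stk
    rw [card_insert_of_notMem hnot]
    simp only [st]
    rw [D0_mx s σ t h]
    congr 2
    ext x
    simp only [mem_erase, mem_insert]
    constructor
    · rintro ⟨h1, h2 | h2⟩
      · exact absurd h2 h1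
      · exact h2
    · intro hx
      exact ⟨fun hh => hnot (hh ▸ hx), Or.inr hx⟩

end Pool.Agent.H444R2.SE
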