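import Pool.Agent.H444R2.SE.Defs

set_option autoImplicit false

/-! Stacks of chains are reduced, not empty, with the right head, and short. -/

namespace Pool.Agent.H444R2.SE

open Finset

theorem D0b_max {P : Type} [PartialOrder P] (σ : Finset P) (hσ : Ch σ) (hne : σ.Nonempty) :
    ∃ t ∈ σ, ∀ x ∈ σ, x ≤ t := by
  obtain ⟨t, ht⟩ := σ.exists_maximal hne
  refine ⟨t, ht.1, ?_⟩
  intro x hx
  rcases hσ x hx t ht.1 with h | h
  · exact h
  · exact ht.2 hx h

theorem t_D0b (h0 : S_D0) (h1 : S_D1) : S_D0b := by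
  classical
  intro P _ β s σ
  obtain ⟨k1, k2⟩ := h0 P β s
  induction hn : σ.card generalizing σ with
  | zero =>
    intro _
    rw [Finset.card_eq_zero] at hn
    subst hn
    rw [k1]
    refine ⟨trivial, by simp, by simp, fun _ => rfl, ?_⟩
    intro t ht
    simp at ht
  | succ n ih =>
    intro hσ
    have hne : σ.Nonempty := by
      rw [← Finset.card_pos, hn]
      omega
    obtain ⟨t, ht, hmax⟩ := D0b_max σ hσ hne
    have hc : (σ.erase t).card = n := by
      rw [Finset.card_erase_of_mem ht, hn]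
      rfl
    have hch : Ch (σ.erase t) := fun x hx y hy =>
      hσ x (Finset.mem_of_mem_erase hx) y (Finset.mem_of_mem_erase hy)
    have hlt : ∀ x ∈ σ.erase t, x < t := by
      intro x hx
      exact lt_of_le_of_ne (hmax x (Finset.mem_of_mem_erase hx)) (Finset.ne_of_mem_erase hx)
    obtain ⟨i1, i2, i3, i4, i5⟩ := ih (σ.erase t) hc hch
    have hs := k2 (σ.erase t) t hlt
    rw [Finset.insert_erase ht] at hs
    obtain ⟨d1, d2, d3, d4, d5⟩ := h1 P (stk β s (σ.erase t)) (β t) i2 i1
    rw [hs]
    refine ⟨d1, ?_, ?_, ?_, ?_⟩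
    · intro h
      rw [h] at d2
      simp at d2
    · omega
    · intro h
      rw [h] at hne
      simp at hne
    · intro t' ht' hmax'
      have : t' = t := le_antisymm (hmax t' ht') (hmax' t ht)
      rw [this]
      exact d2

end Pool.Agent.H444R2.SE
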