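import Pool.Agent.H444R2.SE.Defs

set_option autoImplicit false

namespace Pool.Agent.H444R2.SE

namespace D1aux

variable {P : Type}

lemma psh_one_eq (y : P) : psh [y] y = [y] := by
  unfold psh; simp

lemma psh_one_ne {x y : P} (h : x ≠ y) : psh [y] x = [x, y] := by
  unfold psh; simp [h]

lemma psh_two_eq (y z : P) (r : List P) : psh (y :: z :: r) y = y :: z :: r := by
  unfold psh; simp

lemma psh_two_snd {x y z : P} (r : List P) (h : x ≠ y) (hz : x = z) :
    psh (y :: z :: r) x = z :: r := by
  unfold psh; simp [h, hz]
  intro h'; exact absurd (hz.trans h') h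

lemma psh_two_ne {x y z : P} (r : List P) (h : x ≠ y) (hz : x ≠ z) :
    psh (y :: z :: r) x = x :: y :: z :: r := by
  unfold psh; simp [h, hz]

lemma psh_head {S : List P} {x : P} (h : S.head? = some x) : psh S x = S := by
  match S, h with
  | [y], h =>
    have : y = x := by simpa using h
    subst this; exact psh_one_eq y
  | y :: z :: r, h =>
    have : y = x := by simpa using h
    subst this; exact psh_two_eq y z r

end D1aux

open D1aux in
theorem t_D1 : S_D1 := by
  intro P S x hS hR
  have main : Rd (psh S x) ∧ (psh S x).head? = some x ∧ (psh S x).length ≤ S.length + 1 ∧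
      (psh S x = S ∨ (tg P).Adj S (psh S x)) ∧
      ∀ p : P, S.head? = some p → psh (psh S x) p = psh S p := by
    match S, hS, hR with
    | [y], _, hR =>
      by_cases h : x = y
      · subst h
        rw [psh_one_eq]
        refine ⟨trivial, rfl, by simp, Or.inl rfl, fun p hp => rfl⟩
      · rw [psh_one_ne h]
        refine ⟨⟨h, by simp, trivial⟩, rfl, by simp, Or.inr (Or.inl ⟨x, rfl⟩), fun p hp => ?_⟩
        have : y = p := by simpa using hp
        subst this
        rw [psh_one_eq, psh_two_snd [] (fun e => h e.symm) rfl]
    | y :: z :: r, _, hR =>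
      obtain ⟨hyz, hr, hR'⟩ := hR
      by_cases h : x = y
      · subst h
        rw [psh_two_eq]
        refine ⟨⟨hyz, hr, hR'⟩, rfl, by simp, Or.inl rfl, fun p hp => rfl⟩
      · by_cases hz : x = z
        · rw [psh_two_snd r h hz]
          refine ⟨hR', by simp [hz], by simp, Or.inr (Or.inr ⟨y, rfl⟩), fun p hp => ?_⟩
          have : y = p := by simpa using hp
          subst this
          rw [psh_two_eq]
          match r, hr with
          | [], _ => exact psh_one_ne hyz
          | w :: r', hr =>
            have hw : y ≠ w := fun e => hr (by simp [e])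
            exact psh_two_ne r' hyz hw
        · rw [psh_two_ne r h hz]
          refine ⟨⟨h, by simpa using fun e => hz e.symm, hyz, hr, hR'⟩, rfl, by simp,
            Or.inr (Or.inl ⟨x, rfl⟩), fun p hp => ?_⟩
          have : y = p := by simpa using hp
          subst this
          rw [psh_two_eq, psh_two_snd (z :: r) (fun e => h e.symm) rfl]
  obtain ⟨h1, h2, h3, h4, h5⟩ := main
  refine ⟨h1, h2, h3, h4, fun p q hp hpq => ?_⟩
  rcases hpq with rfl | rfl | rfl
  · rw [psh_head hp]
  · exact psh_head h2
  · exact h5 p hp

end Pool.Agent.H444R2.SE
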