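import Pool.Agent.H444R2.SE.Defs

set_option autoImplicit false

namespace Pool.Agent.H444R2.SE

open Finset

theorem t_D2 : S_D2 := by
  intro P N r hinj hadj
  have hstep : ∀ i, (∃ x, r (i + 1) = x :: r i) → ∃ x, r (i + 1 + 1) = x :: r (i + 1) := by
    rintro i ⟨x, hx⟩
    rcases hadj (i + 1) with h | ⟨y, hy⟩
    · exact h
    · exfalso
      rw [hx] at hy
      have h1 : r i = r (i + 1 + 1) := (List.cons.inj hy).2
      have h2 := hinj h1
      omega
  by_cases hup : ∃ i, ∃ x, r (i + 1) = x :: r i
  · obtain ⟨i, hi⟩ := hup
    have h1 : ∀ k, ∃ x, r (i + k + 1) = x :: r (i + k) := by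
      intro k
      induction k with
      | zero => exact hi
      | succ k ih => exact hstep (i + k) ih
    have h2 : ∀ k, (r (i + k)).length = (r i).length + k := by
      intro k
      induction k with
      | zero => rfl
      | succ k ih =>
        obtain ⟨x, hx⟩ := h1 k
        rw [show i + (k + 1) = i + k + 1 by omega, hx, List.length_cons, ih]
        omega
    refine ⟨i + (N + 1), ?_⟩
    rw [h2]
    omega
  · exfalso
    have h1 : ∀ i, ∃ x, r i = x :: r (i + 1) := by
      intro i
      rcases hadj i with h | h
      · exact absurd ⟨i, h⟩ hup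
      · exact h
    have h2 : ∀ k, (r 0).length = (r k).length + k := by
      intro k
      induction k with
      | zero => rfl
      | succ k ih =>
        obtain ⟨x, hx⟩ := h1 k
        rw [hx, List.length_cons] at ih
        omega
    have h3 := h2 ((r 0).length + 1)
    omega

end Pool.Agent.H444R2.SE
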