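import Pool.Agent.H444R2.SE.Defs

set_option autoImplicit false

/-! Labels are nested. -/

namespace Pool.Agent.H444R2.SE

open Finset

theorem D3a_max {P : Type} [PartialOrder P] (τ A : Finset P) (hτ : Ch τ) (hA : A ⊆ τ)
    (hne : A.Nonempty) : ∃ t ∈ A, ∀ x ∈ A, x ≤ t := by
  obtain ⟨t, ht⟩ := A.exists_maximal hne
  refine ⟨t, ht.1, ?_⟩
  intro x hx
  rcases hτ x (hA hx) t (hA ht.1) with h | h
  · exact h
  · exact ht.2 hx h

/-- three pairwise comparable elements below `s` are not distinct -/
theorem D3a_three {P : Type} [PartialOrder P] (s : P) (hH2 : H2 s) (p x q : P) (hp : p < s)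
    (hx : x < s) (hq : q < s) (h1 : x ≤ q ∨ q ≤ x) (h2 : p ≤ q ∨ q ≤ p) (h3 : p ≤ x ∨ x ≤ p) :
    p = x ∨ x = q ∨ p = q := by
  by_contra hcon
  rw [not_or, not_or] at hcon
  obtain ⟨n1, n2, n3⟩ := hcon
  have key : ∀ u v w : P, u ≠ v → v ≠ w → u ≤ v → v ≤ w → w < s → False := by
    intro u v w e1 e2 l1 l2 l3
    exact hH2 u v w (lt_of_le_of_ne l1 e1) (lt_of_le_of_ne l2 e2) l3
  rcases h1 with h1 | h1 <;> rcases h2 with h2 | h2 <;> rcases h3 with h3 | h3
  · exact key p x q n1 n2 h3 h1 hq
  · exact key x p q (Ne.symm n1) n3 h3 h2 hq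
  · exact key p x q n1 n2 h3 h1 hq
  · exact key x q p n2 (Ne.symm n3) h1 h2 hp
  · exact key p q x n3 (Ne.symm n2) h2 h1 hx
  · exact key q x p (Ne.symm n2) (Ne.symm n1) h1 h3 hp
  · exact key q p x (Ne.symm n3) n1 h2 h3 hx
  · exact key q x p (Ne.symm n2) (Ne.symm n1) h1 h3 hp

theorem t_D3a (h0 : S_D0) (h0b : S_D0b) (h1 : S_D1) : S_D3a := by
  classical
  intro P _ s E a b β hH2 hBet hsEa hsa hbs σ τ hch hst hcard hR5
  obtain ⟨B1, B2, B3⟩ := hBet
  obtain ⟨R1, R2, R3, R4⟩ := hR5
  have hβs : β s < s := by
    by_cases h : E s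
    · exact B2 s h (hsa s h)
    · rw [B1 s h]
      exact hbs h
  have hβt : ∀ t ∈ τ, β t < s := by
    intro t ht
    by_cases h : E t
    · exact B2 t h (R1 t ht h)
    · rw [B1 t h]
      exact R2 t ht h
  obtain ⟨new, hnew⟩ : ∃ x, τ \ σ = {x} := by
    apply Finset.card_eq_one.1
    rw [Finset.card_sdiff_of_subset hst, hcard]
    omega
  have hnτ : new ∈ τ := (mem_sdiff.1 (hnew ▸ mem_singleton_self new)).1
  have hnσ : new ∉ σ := (mem_sdiff.1 (hnew ▸ mem_singleton_self new)).2
  have hτσ : ∀ x ∈ τ, x = new ∨ x ∈ σ := by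
    intro x hx
    by_cases h : x ∈ σ
    · exact Or.inr h
    · left
      have : x ∈ τ \ σ := mem_sdiff.2 ⟨hx, h⟩
      rw [hnew, mem_singleton] at this
      exact this
  have hchσ : Ch σ := fun x hx y hy => hch x (hst hx) y (hst hy)
  have key : ∀ (n : ℕ) (d : P), d ∈ σ → (σ.filter (fun x => x < d)).card = n →
      stk β s (τ.filter (fun x => x ≤ d)) = stk β s (σ.filter (fun x => x ≤ d)) := by
    intro n
    induction n using Nat.strong_induction_on with
    | _ n ih =>
      intro d hd hn
      have hdτ : d ∈ τ := hst hd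
      by_cases hnd : new ≤ d
      · have hnd' : new < d := lt_of_le_of_ne hnd (fun h => hnσ (h ▸ hd))
        have eσ : σ.filter (fun x => x ≤ d) = insert d (σ.filter (fun x => x < d)) := by
          ext x
          simp only [mem_filter, mem_insert]
          constructor
          · rintro ⟨h1, h2⟩
            rcases h2.lt_or_eq with h | h
            · exact Or.inr ⟨h1, h⟩
            · exact Or.inl h
          · rintro (h | ⟨h1, h2⟩)
            · rw [h]; exact ⟨hd, le_rfl⟩
            · exact ⟨h1, h2.le⟩
        have eτ : τ.filter (fun x => x ≤ d) = insert d (τ.filter (fun x => x < d)) := by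
          ext x
          simp only [mem_filter, mem_insert]
          constructor
          · rintro ⟨h1, h2⟩
            rcases h2.lt_or_eq with h | h
            · exact Or.inr ⟨h1, h⟩
            · exact Or.inl h
          · rintro (h | ⟨h1, h2⟩)
            · rw [h]; exact ⟨hdτ, le_rfl⟩
            · exact ⟨h1, h2.le⟩
        have sσ := (h0 P β s).2 (σ.filter (fun x => x < d)) d (fun x hx => (mem_filter.1 hx).2)
        have sτ := (h0 P β s).2 (τ.filter (fun x => x < d)) d (fun x hx => (mem_filter.1 hx).2)
        rw [eσ, eτ, sσ, sτ]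
        by_cases hbetw : ∃ d' ∈ σ, new < d' ∧ d' < d
        · obtain ⟨d1, hd1σ, hd1n, hd1d⟩ := hbetw
          obtain ⟨d', hd', hmax⟩ := D3a_max σ (σ.filter (fun x => x < d)) hchσ
            (Finset.filter_subset _ _) ⟨d1, mem_filter.2 ⟨hd1σ, hd1d⟩⟩
          have hd'σ := (mem_filter.1 hd').1
          have hd'd := (mem_filter.1 hd').2
          have hnd'2 : new < d' := hd1n.trans_le (hmax d1 (mem_filter.2 ⟨hd1σ, hd1d⟩))
          have e1 : σ.filter (fun x => x < d) = σ.filter (fun x => x ≤ d') := by
            ext x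
            simp only [mem_filter]
            constructor
            · rintro ⟨h1, h2⟩
              exact ⟨h1, hmax x (mem_filter.2 ⟨h1, h2⟩)⟩
            · rintro ⟨h1, h2⟩
              exact ⟨h1, h2.trans_lt hd'd⟩
          have e2 : τ.filter (fun x => x < d) = τ.filter (fun x => x ≤ d') := by
            ext x
            simp only [mem_filter]
            constructor
            · rintro ⟨h1, h2⟩
              rcases hτσ x h1 with h | h
              · rw [h]
                exact ⟨hnτ, hnd'2.le⟩
              · exact ⟨h1, hmax x (mem_filter.2 ⟨h, h2⟩)⟩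
            · rintro ⟨h1, h2⟩
              exact ⟨h1, h2.trans_lt hd'd⟩
          have hlt : (σ.filter (fun x => x < d')).card < n := by
            rw [← hn]
            apply Finset.card_lt_card
            rw [Finset.ssubset_iff_of_subset (fun x hx => mem_filter.2
              ⟨(mem_filter.1 hx).1, (mem_filter.1 hx).2.trans hd'd⟩)]
            exact ⟨d', hd', fun h => lt_irrefl _ (mem_filter.1 h).2⟩
          rw [e1, e2, ih _ hlt d' hd'σ rfl]
        · push Not at hbetw
          have hbelow : ∀ x ∈ σ, x < d → x < new := by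
            intro x hx hxd
            rcases hch x (hst hx) new hnτ with h | h
            · exact lt_of_le_of_ne h (fun hh => hnσ (hh ▸ hx))
            · have : new < x := lt_of_le_of_ne h (fun hh => hnσ (hh ▸ hx))
              exact absurd hxd (hbetw x hx this)
          have e1 : τ.filter (fun x => x < d) = insert new (σ.filter (fun x => x < d)) := by
            ext x
            simp only [mem_filter, mem_insert]
            constructor
            · rintro ⟨h1, h2⟩
              rcases hτσ x h1 with h | h
              · exact Or.inl h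
              · exact Or.inr ⟨h, h2⟩
            · rintro (h | ⟨h1, h2⟩)
              · rw [h]
                exact ⟨hnτ, hnd'⟩
              · exact ⟨hst h1, h2⟩
          have s1 := (h0 P β s).2 (σ.filter (fun x => x < d)) new
            (fun x hx => hbelow x (mem_filter.1 hx).1 (mem_filter.1 hx).2)
          rw [e1, s1]
          have hchf : Ch (σ.filter (fun x => x < d)) := fun x hx y hy =>
            hchσ x (mem_filter.1 hx).1 y (mem_filter.1 hy).1
          obtain ⟨k1, k2, k3, k4, k5⟩ := h0b P β s (σ.filter (fun x => x < d)) hchf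
          obtain ⟨_, _, _, _, d5⟩ := h1 P (stk β s (σ.filter (fun x => x < d))) (β new) k2 k1
          have c1 : β new ≤ β d ∨ β d ≤ β new :=
            B3 new d hnd (fun h => R1 new hnτ h) (fun h => R1 d hdτ h)
              (fun h => R3 new hnτ d hdτ hnd' h (fun x hx hxd => (hbelow x hx hxd).le))
          by_cases hem : (σ.filter (fun x => x < d)).Nonempty
          · obtain ⟨t', ht', hmax⟩ := D3a_max σ _ hchσ (Finset.filter_subset _ _) hem
            have ht'σ := (mem_filter.1 ht').1
            have ht'd := (mem_filter.1 ht').2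
            have ht'n := hbelow t' ht'σ ht'd
            have hhead := k5 t' ht' hmax
            have c2 : β t' ≤ β d ∨ β d ≤ β t' :=
              B3 t' d ht'd.le (fun h => R1 t' (hst ht'σ) h) (fun h => R1 d hdτ h)
                (fun h => R3 t' (hst ht'σ) d hdτ ht'd h
                  (fun x hx hxd => hmax x (mem_filter.2 ⟨hx, hxd⟩)))
            have c3 : β t' ≤ β new ∨ β new ≤ β t' :=
              B3 t' new ht'n.le (fun h => R1 t' (hst ht'σ) h) (fun h => R1 new hnτ h)
                (fun h => R3 t' (hst ht'σ) new hnτ ht'n h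
                  (fun x hx hxn => hmax x (mem_filter.2 ⟨hx, hxn.trans hnd'⟩)))
            exact d5 (β t') (β d) hhead (D3a_three s hH2 _ _ _ (hβt t' (hst ht'σ))
              (hβt new hnτ) (hβt d hdτ) c1 c2 c3)
          · have hem' : σ.filter (fun x => x < d) = ∅ := Finset.not_nonempty_iff_eq_empty.1 hem
            have hno : ∀ x ∈ σ, ¬ x < d := fun x hx h => hem ⟨x, mem_filter.2 ⟨hx, h⟩⟩
            have hhead := k4 hem'
            have hds : d ≤ s := R4 d hdτ hno
            have hns : new ≤ s := R4 new hnτ (fun x hx h => hno x hx (h.trans hnd'))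
            have c2 : β d ≤ β s ∨ β s ≤ β d :=
              B3 d s hds (fun h => R1 d hdτ h) (fun h => hsa s h) (fun h => hsa d h)
            have c3 : β new ≤ β s ∨ β s ≤ β new :=
              B3 new s hns (fun h => R1 new hnτ h) (fun h => hsa s h) (fun h => hsa new h)
            exact d5 (β s) (β d) hhead (D3a_three s hH2 _ _ _ hβs
              (hβt new hnτ) (hβt d hdτ) c1 c2.symm c3.symm)
      · have e1 : τ.filter (fun x => x ≤ d) = σ.filter (fun x => x ≤ d) := by
          ext x
          simp only [mem_filter]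
          constructor
          · rintro ⟨h1, h2⟩
            rcases hτσ x h1 with h | h
            · rw [h] at h2
              exact absurd h2 hnd
            · exact ⟨h, h2⟩
          · rintro ⟨h1, h2⟩
            exact ⟨hst h1, h2⟩
        rw [e1]
  intro S hS
  unfold Lab at hS ⊢
  rw [mem_image] at hS ⊢
  obtain ⟨d, hd, hdS⟩ := hS
  rw [mem_filter] at hd
  refine ⟨d, mem_filter.2 ⟨hst hd.1, hd.2⟩, ?_⟩
  have hk := key _ d hd.1 rfl
  rw [← hdS]
  convert hk using 3

end Pool.Agent.H444R2.SE
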