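import Pool.Agent.H444R2.SE.Defs

set_option autoImplicit false

/-! D3b (helper196): labels are cliques. -/

namespace Pool.Agent.H444R2.SE

open Finset

theorem D3b_three {P : Type} [PartialOrder P] {s : P} (h : H2 s) {p q r : P}
    (h1 : p ≤ q ∨ q ≤ p) (h2 : q ≤ r ∨ r ≤ q) (h3 : p ≤ r ∨ r ≤ p) (hp : p < s) (hq : q < s)
    (hr : r < s) : p = q ∨ q = r ∨ p = r := by
  by_contra hc
  push Not at hc
  obtain ⟨n1, n2, n3⟩ := hc
  rcases h1 with h1 | h1
  · have l1 := lt_of_le_of_ne h1 n1
    rcases h2 with h2 | h2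
    · exact h p q r l1 (lt_of_le_of_ne h2 n2) hr
    · have l2 := lt_of_le_of_ne h2 n2.symm
      rcases h3 with h3 | h3
      · exact h p r q (lt_of_le_of_ne h3 n3) l2 hq
      · exact h r p q (lt_of_le_of_ne h3 n3.symm) l1 hq
  · have l1 := lt_of_le_of_ne h1 n1.symm
    rcases h2 with h2 | h2
    · have l2 := lt_of_le_of_ne h2 n2
      rcases h3 with h3 | h3
      · exact h q p r l1 (lt_of_le_of_ne h3 n3) hr
      · exact h q r p l2 (lt_of_le_of_ne h3 n3.symm) hp
    · exact h r q p (lt_of_le_of_ne h2 n2.symm) l1 hp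

theorem t_D3b (h0 : S_D0) (h0b : S_D0b) (h1 : S_D1) : S_D3b := by
  classical
  intro P _ s E a b β hH hB ω hω w1 w2 w3
  obtain ⟨b1, b2, b3⟩ := hB
  have hlt : ∀ t ∈ ω, β t < s := by
    intro t ht
    by_cases hE : E t
    · exact b2 t hE (w1 t ht hE)
    · rw [b1 t hE]; exact w2 t ht hE
  -- the claim
  have key : ∀ d ∈ ω, ¬ E d → ∀ n : ℕ, ∀ t ∈ ω, d < t →
      (ω.filter (fun x => x < t)).card ≤ n →
      stk β s (ω.filter (fun x => x ≤ t)) =
        psh (stk β s (ω.filter (fun x => x ≤ d))) (β t) := by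
    intro d hd hEd n
    have hCd : Ch (ω.filter (fun x => x ≤ d)) := fun x hx y hy =>
      hω x (mem_filter.1 hx).1 y (mem_filter.1 hy).1
    obtain ⟨r1, r2, -, -, r5⟩ := h0b P β s (ω.filter (fun x => x ≤ d)) hCd
    have r6 := r5 d (mem_filter.2 ⟨hd, le_rfl⟩) (fun x hx => (mem_filter.1 hx).2)
    induction n with
    | zero =>
      intro t _ hdt hc
      have : d ∈ ω.filter (fun x => x < t) := mem_filter.2 ⟨hd, hdt⟩
      have := card_pos.2 ⟨d, this⟩
      omega
    | succ n ih =>
      intro t ht hdt hc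
      have hmemd : d ∈ ω.filter (fun x => x < t) := mem_filter.2 ⟨hd, hdt⟩
      obtain ⟨m, hm, hmax⟩ := (ω.filter (fun x => x < t)).exists_maximal ⟨d, hmemd⟩
      have hmω := (mem_filter.1 hm).1
      have hmt := (mem_filter.1 hm).2
      have hmax' : ∀ x ∈ ω, x < t → x ≤ m := by
        intro x hx hxt
        rcases hω x hx m hmω with h | h
        · exact h
        · exact hmax (mem_filter.2 ⟨hx, hxt⟩) h
      have e1 : ω.filter (fun x => x ≤ t) = insert t (ω.filter (fun x => x < t)) := by
        ext x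
        simp only [mem_filter, mem_insert]
        constructor
        · rintro ⟨hx, hxt⟩
          rcases hxt.eq_or_lt with h | h
          · exact Or.inl h
          · exact Or.inr ⟨hx, h⟩
        · rintro (h | ⟨hx, h⟩)
          · rw [h]; exact ⟨ht, le_rfl⟩
          · exact ⟨hx, h.le⟩
      have e2 : ω.filter (fun x => x < t) = ω.filter (fun x => x ≤ m) := by
        ext x
        simp only [mem_filter]
        constructor
        · rintro ⟨hx, hxt⟩
          exact ⟨hx, hmax' x hx hxt⟩
        · rintro ⟨hx, h⟩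
          exact ⟨hx, h.trans_lt hmt⟩
      have e3 : stk β s (ω.filter (fun x => x ≤ t)) =
          psh (stk β s (ω.filter (fun x => x < t))) (β t) := by
        rw [e1]
        exact (h0 P β s).2 _ t (fun x hx => (mem_filter.1 hx).2)
      rw [e3, e2]
      have hdm : d ≤ m := hmax' d hd hdt
      rcases hdm.eq_or_lt with h | h
      · rw [← h]
      · have hcard : (ω.filter (fun x => x < m)).card ≤ n := by
          have h4 : ω.filter (fun x => x < m) ⊂ ω.filter (fun x => x < t) := by
            rw [Finset.ssubset_iff_of_subset]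
            · exact ⟨m, hm, fun hh => lt_irrefl _ (mem_filter.1 hh).2⟩
            · intro x hx
              rw [mem_filter] at hx ⊢
              exact ⟨hx.1, hx.2.trans hmt⟩
          have := card_lt_card h4
          omega
        rw [ih m hmω h hcard]
        refine (h1 P _ (β m) r2 r1).2.2.2.2 (β d) (β t) r6 ?_
        apply D3b_three hH _ _ _ (hlt d hd) (hlt m hmω) (hlt t ht)
        · exact b3 d m hdm (fun hh => absurd hh hEd) (w1 m hmω) (fun hh => absurd hh hEd)
        · exact b3 m t hmt.le (w1 m hmω) (w1 t ht) (fun hh => w3 m hmω t ht hmt hh hmax')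
        · exact b3 d t hdt.le (fun hh => absurd hh hEd) (w1 t ht) (fun hh => absurd hh hEd)
  -- two labels
  have main : ∀ d ∈ ω, ¬ E d → ∀ d' ∈ ω, d < d' →
      stk β s (ω.filter (fun x => x ≤ d)) ≠ stk β s (ω.filter (fun x => x ≤ d')) →
      (tg P).Adj (stk β s (ω.filter (fun x => x ≤ d))) (stk β s (ω.filter (fun x => x ≤ d'))) := by
    intro d hd hEd d' hd' hdd hne
    have hCd : Ch (ω.filter (fun x => x ≤ d)) := fun x hx y hy =>
      hω x (mem_filter.1 hx).1 y (mem_filter.1 hy).1
    obtain ⟨r1, r2, -, -, -⟩ := h0b P β s (ω.filter (fun x => x ≤ d)) hCd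
    have k := key d hd hEd _ d' hd' hdd le_rfl
    rw [k] at hne ⊢
    rcases (h1 P _ (β d') r2 r1).2.2.2.1 with h | h
    · exact absurd h.symm hne
    · exact h
  intro S hS S' hS' hne
  unfold Lab at hS hS'
  rw [mem_image] at hS hS'
  obtain ⟨d, hd, rfl⟩ := hS
  obtain ⟨d', hd', rfl⟩ := hS'
  rw [mem_filter] at hd hd'
  rcases hω d hd.1 d' hd'.1 with h | h
  · rcases h.eq_or_lt with h | h
    · subst h; exact absurd rfl hne
    · exact main d hd.1 hd.2 d' hd'.1 h hne
  · rcases h.eq_or_lt with h | h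
    · subst h; exact absurd rfl hne
    · exact (main d' hd'.1 hd'.2 d hd.1 h hne.symm).symm

end Pool.Agent.H444R2.SE
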