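import Pool.Agent.H444R2.SE.Defs

set_option autoImplicit false

/-! The wandering path of chains. -/

namespace Pool.Agent.H444R2.SE

open Finset

theorem F1_max {P : Type} [PartialOrder P] (σ : Finset P) (hσ : Ch σ) (hne : σ.Nonempty) :
    ∃ t ∈ σ, ∀ x ∈ σ, x ≤ t := by
  obtain ⟨t, ht⟩ := σ.exists_maximal hne
  refine ⟨t, ht.1, ?_⟩
  intro x hx
  rcases hσ x hx t ht.1 with h | h
  · exact h
  · exact ht.2 hx h

theorem F1_Bl {P : Type} [PartialOrder P] (E : P → Prop) (b : P → P) (σ τ : Finset P)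
    (h : σ ⊆ τ) : Bl E b σ ⊆ Bl E b τ := by
  classical
  unfold Bl
  exact Finset.image_subset_image (Finset.filter_subset_filter _ h)

theorem t_F1 (h7 : S_A7) (hb1 : S_B1) (hb3 : S_B3) (hb6 : S_B6) : S_F1 := by
  classical
  intro P _ N s f E a b c hN hSP
  set K := Kc s f E a b c with hK
  obtain ⟨hmono, hac⟩ := hb1 P s f E a b c hSP
  have himg : ∀ σ : Finset P, σ.image f ⊆ K σ := by
    intro σ x hx
    rw [hK]
    unfold Kc
    rw [mem_insert]
    right
    simp only [mem_union]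
    left; left; left
    convert hx
  have hs : ∀ σ : Finset P, s ∈ K σ := by
    intro σ
    rw [hK]
    unfold Kc
    exact mem_insert_self _ _
  have hne : ∀ σ : Finset P, σ.Nonempty → Ch σ → σ.image f ≠ σ := by
    intro σ h1 h2 h3
    obtain ⟨m, hm, hmax⟩ := F1_max σ h2 h1
    have h4 : f m ∈ σ := by
      rw [← h3]
      exact mem_image_of_mem f hm
    exact hSP.inc2 m (hmax _ h4)
  obtain ⟨r, hr0, hrinj, hr⟩ := hb6 (Finset P) (fun σ τ => Rl K σ τ ∨ Rl K τ σ) {s}
    (fun x y h => h.symm) (by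
      intro x
      have h1 : {y | Rl K x y ∨ Rl K y x} ⊆ ((K x).powerset ∪ x.powerset : Finset (Finset P)) := by
        intro y hy
        rw [Finset.mem_coe, mem_union, mem_powerset, mem_powerset]
        rcases hy with hy | hy
        · exact Or.inl hy.2.2.2.2
        · exact Or.inr hy.2.2.1
      exact (Finset.finite_toSet _).subset h1)
    (by
      intro F hF
      have hF' : ({s} : Finset P) ∈ F.filter (fun σ => σ.Nonempty ∧ Ch σ) := by
        rw [mem_filter]
        refine ⟨hF, ⟨s, mem_singleton_self s⟩, ?_⟩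
        intro x hx y hy
        rw [mem_singleton] at hx hy
        subst hx
        subst hy
        exact Or.inl le_rfl
      obtain ⟨σ, τ, hR, hor⟩ := h7 P N K f s hN hSP.mono hmono (fun σ _ hc => hac σ hc) himg hs hne
        (F.filter (fun σ => σ.Nonempty ∧ Ch σ)) (fun σ hσ => (mem_filter.1 hσ).2) hF'
      have hτ : τ.Nonempty ∧ Ch τ := ⟨hR.1.mono hR.2.2.1, hR.2.1⟩
      have hσ : σ.Nonempty ∧ Ch σ :=
        ⟨hR.1, fun x hx y hy => hR.2.1 x (hR.2.2.1 hx) y (hR.2.2.1 hy)⟩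
      rcases hor with ⟨h1, h2⟩ | ⟨h1, h2⟩
      · exact ⟨σ, τ, (mem_filter.1 h1).1, fun h => h2 (mem_filter.2 ⟨h, hτ⟩), Or.inl hR⟩
      · exact ⟨τ, σ, (mem_filter.1 h1).1, fun h => h2 (mem_filter.2 ⟨h, hσ⟩), Or.inr hR⟩)
  refine ⟨r, hrinj, hr, ?_⟩
  intro C
  have hfin := hb3 P N s f E a b c hN hSP C
  set S : Set (Finset P) := {τ : Finset P | ∃ σ, Rl (Kc s f E a b c) σ τ ∧ Bl E b σ ⊆ C} with hS
  have h1 : (r ⁻¹' S).Finite := hfin.preimage hrinj.injOn
  have h2 : ((fun i => r (i + 1)) ⁻¹' S).Finite := by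
    apply hfin.preimage
    intro i _ j _ hij
    have := hrinj hij
    omega
  apply (h1.union h2).subset
  intro i hi
  have hi' : Bl E b (r i) ⊆ C := hi
  rcases hr i with h | h
  · right
    exact ⟨r i, h, hi'⟩
  · left
    exact ⟨r (i + 1), h, (F1_Bl E b _ _ h.2.2.1).trans hi'⟩

end Pool.Agent.H444R2.SE
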