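import Pool.Agent.H444R2.SE.Defs

set_option autoImplicit false

namespace Pool.Agent.H444R2.SE

open Finset

theorem F2_Bl_mono {P : Type} (E : P → Prop) (b : P → P) {σ τ : Finset P} (h : σ ⊆ τ) :
    Bl E b σ ⊆ Bl E b τ := by
  classical
  intro x hx
  simp only [Bl, Finset.mem_image, Finset.mem_filter] at hx ⊢
  obtain ⟨d, ⟨hd, hE⟩, rfl⟩ := hx
  exact ⟨d, ⟨h hd, hE⟩, rfl⟩

theorem F2_mem_Bl {P : Type} (E : P → Prop) (b : P → P) {σ : Finset P} {x : P} :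
    x ∈ Bl E b σ ↔ ∃ d ∈ σ, ¬ E d ∧ b d = x := by
  classical
  simp only [Bl, Finset.mem_image, Finset.mem_filter]
  constructor
  · rintro ⟨d, ⟨hd, hE⟩, rfl⟩
    exact ⟨d, hd, hE, rfl⟩
  · rintro ⟨d, hd, hE, rfl⟩
    exact ⟨d, ⟨hd, hE⟩, rfl⟩

theorem t_F2 (hc1 : S_C1) (hc2 : S_C2) (hb4 : S_B4) (hb5 : S_B5) (hf1 : S_F1) : S_F2 := by
  intro P _ N s f E a b c hLen hSP hH1
  obtain ⟨β, hβ⟩ := hb4 P N s f E a b c hLen hSP
  obtain ⟨hbs, hrel5⟩ := hb5 P s f E a b c hSP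
  obtain ⟨r, -, hrl, hrfin⟩ := hf1 P N s f E a b c hLen hSP
  -- every `r i` is contained in the larger set of a pair
  have hpair : ∀ i, ∃ σ τ : Finset P, Rl (Kc s f E a b c) σ τ ∧ r i ⊆ τ := by
    intro i
    rcases hrl i with h | h
    · exact ⟨_, _, h, h.2.2.1⟩
    · exact ⟨_, _, h, Finset.Subset.refl _⟩
  -- `b` is monotone on `¬ E`
  have hbm : ∀ d d', ¬ E d → ¬ E d' → d ≤ d' → b d ≤ b d' := by
    intro d d' hd hd' hdd
    have h1 := hSP.hb d hd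
    have h2 := hSP.hb d' hd'
    apply h2.2
    intro y hy
    rcases hy with rfl | hy
    · exact h1.1 (Set.mem_insert _ _)
    · rw [Set.mem_singleton_iff] at hy
      rw [hy]
      exact (h1.1 (Set.mem_insert_of_mem _ rfl)).trans (hSP.mono hdd)
  have hlt : ∀ i, ∀ x ∈ Bl E b (r i), x < s := by
    intro i x hx
    obtain ⟨d, hd, hE, rfl⟩ := (F2_mem_Bl E b).1 hx
    obtain ⟨σ, τ, hR, hsub⟩ := hpair i
    exact (hrel5 σ τ hR).2.1 d (hsub hd) hE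
  have hclique : ∀ i, ∀ x ∈ Bl E b (r i), ∀ y ∈ Bl E b (r i), x ≠ y → (cg s).Adj x y := by
    intro i x hx y hy hne
    refine ⟨hlt i x hx, hlt i y hy, ?_⟩
    obtain ⟨d, hd, hE, rfl⟩ := (F2_mem_Bl E b).1 hx
    obtain ⟨d', hd', hE', rfl⟩ := (F2_mem_Bl E b).1 hy
    obtain ⟨σ, τ, hR, hsub⟩ := hpair i
    rcases hR.2.1 d (hsub hd) d' (hsub hd') with h | h
    · exact Or.inl (lt_of_le_of_ne (hbm d d' hE hE' h) hne)
    · exact Or.inr (lt_of_le_of_ne (hbm d' d hE' hE h) (Ne.symm hne))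
  have hnest : ∀ i, Bl E b (r i) ⊆ Bl E b (r (i + 1)) ∨ Bl E b (r (i + 1)) ⊆ Bl E b (r i) := by
    intro i
    rcases hrl i with h | h
    · exact Or.inl (F2_Bl_mono E b h.2.2.1)
    · exact Or.inr (F2_Bl_mono E b h.2.2.1)
  have hfin : ∀ C : Finset P, {i | Bl E b (r i) = C}.Finite := by
    intro C
    refine (hrfin C).subset ?_
    intro i hi
    have hi' : Bl E b (r i) = C := hi
    show Bl E b (r i) ⊆ C
    rw [hi']
  obtain ⟨r', hinj, hadj, hmem⟩ := hc1 P (cg s) (fun i => Bl E b (r i)) hclique hnest hfin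
  refine hH1 (β s) N ⟨r', hinj, fun i => ⟨hadj i, ?_⟩⟩
  obtain ⟨j, hj⟩ := hmem i
  obtain ⟨d, hd, hE, hdx⟩ := (F2_mem_Bl E b).1 hj
  obtain ⟨σ, τ, hR, hsub⟩ := hpair j
  rw [← hdx]
  exact hc2 P N s f E a b c β hLen hSP hbs hβ σ τ hR (hrel5 σ τ hR) d (hsub hd) hE

end Pool.Agent.H444R2.SE
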