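import Pool.Agent.H444R2.SE.Defs

set_option autoImplicit false

/-! The case of height at most two. -/

namespace Pool.Agent.H444R2.SE

open Finset

theorem t_F3 (hc1 : S_C1) (hb4 : S_B4) (hb5 : S_B5) (h0b : S_D0b) (h2 : S_D2) (h3a : S_D3a)
    (h3b : S_D3b) (hf1 : S_F1) : S_F3 := by
  classical
  intro P _ N s f E a b c hN hSP hH2
  obtain ⟨r, hrinj, hr, hrfin⟩ := hf1 P N s f E a b c hN hSP
  obtain ⟨β, hBet⟩ := hb4 P N s f E a b c hN hSP
  obtain ⟨hbs, hR5⟩ := hb5 P s f E a b c hSP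
  have hsa : ∀ t, E t → s ≤ a t := fun t ht => (hSP.ha t ht).1 (by simp)
  -- every chain of the path is good
  have hgood : ∀ i, Ch (r i) ∧ (∀ t ∈ r i, E t → t ≤ a t) ∧ (∀ t ∈ r i, ¬ E t → b t < s) ∧
      (∀ t ∈ r i, ∀ t' ∈ r i, t < t' → E t → (∀ x ∈ r i, x < t' → x ≤ t) → t' ≤ a t) := by
    intro i
    rcases hr i with h | h
    · obtain ⟨k1, k2, k3, k4⟩ := hR5 _ _ h
      have hsub := h.2.2.1
      exact ⟨fun x hx y hy => h.2.1 x (hsub hx) y (hsub hy), fun t ht => k1 t (hsub ht),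
        fun t ht => k2 t (hsub ht), fun t ht t' ht' => k3 t (hsub ht) t' (hsub ht')⟩
    · obtain ⟨k1, k2, k3, k4⟩ := hR5 _ _ h
      have hsub := h.2.2.1
      exact ⟨h.2.1, k1, k2, fun t ht t' ht' hlt hE hx =>
        k3 t ht t' ht' hlt hE (fun x hxr => hx x (hsub hxr))⟩
  have hhead : ∀ i, ∀ d ∈ r i, ¬ E d →
      (stk β s ((r i).filter (fun x => x ≤ d))).head? = some (b d) := by
    intro i d hd hE
    have hch : Ch ((r i).filter (fun x => x ≤ d)) := fun x hx y hy =>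
      (hgood i).1 x (mem_filter.1 hx).1 y (mem_filter.1 hy).1
    have := (h0b P β s _ hch).2.2.2.2 d (mem_filter.2 ⟨hd, le_rfl⟩)
      (fun x hx => (mem_filter.1 hx).2)
    rw [this, hBet.1 d hE]
  obtain ⟨ρ, hρinj, hρadj, hρmem⟩ := hc1 (List P) (tg P) (fun i => Lab β s E (r i)) (by
      intro i S hS S' hS' hne
      obtain ⟨k1, k2, k3, k4⟩ := hgood i
      exact h3b P s E a b β hH2 hBet (r i) k1 k2 k3 k4 S hS S' hS' hne) (by
      intro i
      rcases hr i with h | h
      · left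
        exact h3a P s E a b β hH2 hBet (hsa s) hsa hbs _ _ h.2.1 h.2.2.1 h.2.2.2.1 (hR5 _ _ h)
      · right
        exact h3a P s E a b β hH2 hBet (hsa s) hsa hbs _ _ h.2.1 h.2.2.1 h.2.2.2.1 (hR5 _ _ h)) (by
      intro C
      apply (hrfin (C.image (fun S => S.head?.getD s))).subset
      intro i hi
      have hi' : Lab β s E (r i) = C := hi
      show Bl E b (r i) ⊆ _
      intro y hy
      unfold Bl at hy
      rw [mem_image] at hy
      obtain ⟨d, hd, rfl⟩ := hy
      rw [mem_filter] at hd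
      rw [mem_image]
      refine ⟨stk β s ((r i).filter (fun x => x ≤ d)), ?_, ?_⟩
      · rw [← hi']
        unfold Lab
        rw [mem_image]
        refine ⟨d, mem_filter.2 hd, ?_⟩
        congr 1
      · rw [hhead i d hd.1 hd.2]
        rfl)
  obtain ⟨i, hi⟩ := h2 P (N + 1) ρ hρinj hρadj
  obtain ⟨j, hj⟩ := hρmem i
  unfold Lab at hj
  rw [mem_image] at hj
  obtain ⟨d, hd, hd'⟩ := hj
  have hch : Ch ((r j).filter (fun x => x ≤ d)) := fun x hx y hy =>
    (hgood j).1 x (mem_filter.1 hx).1 y (mem_filter.1 hy).1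
  have hlen := (h0b P β s _ hch).2.2.1
  have hcard := hN _ hch
  have hEq : (stk β s ((r j).filter (fun x => x ≤ d))).length = (ρ i).length := by
    rw [← hd']
  omega

end Pool.Agent.H444R2.SE
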