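import Pool.Agent.H444R2.SE.Defs

set_option autoImplicit false

/-! The final theorem. -/

namespace Pool.Agent.H444R2.SE

open Finset

theorem F4_up {P : Type} [PartialOrder P] (n : ℕ)
    (hn : ∀ c : Finset P, IsChain (· ≤ ·) (c : Set P) → c.card ≤ n) (f : P → P)
    (hf : Monotone f) (hfix : ∀ x, f x ≠ x) (x : P) : ¬ x ≤ f x := by
  classical
  intro hx
  have hstep : ∀ i : ℕ, f^[i] x < f^[i + 1] x := by
    intro i
    apply lt_of_le_of_ne
    · rw [Function.iterate_succ_apply]
      exact (hf.iterate i) hx
    · rw [Function.iterate_succ_apply']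
      exact fun h => hfix _ h.symm
  have hsm : StrictMono (fun i : ℕ => f^[i] x) := strictMono_nat_of_lt_succ hstep
  have h1 := hn ((Finset.range (n + 1)).image (fun i : ℕ => f^[i] x)) (by
    intro u hu v hv _
    rw [Finset.mem_coe, mem_image] at hu hv
    obtain ⟨i, _, rfl⟩ := hu
    obtain ⟨j, _, rfl⟩ := hv
    rcases le_total i j with h | h
    · exact Or.inl (hsm.monotone h)
    · exact Or.inr (hsm.monotone h))
  rw [Finset.card_image_of_injective _ hsm.injective, Finset.card_range] at h1
  omega

theorem F4_down {P : Type} [PartialOrder P] (n : ℕ)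
    (hn : ∀ c : Finset P, IsChain (· ≤ ·) (c : Set P) → c.card ≤ n) (f : P → P)
    (hf : Monotone f) (hfix : ∀ x, f x ≠ x) (x : P) : ¬ f x ≤ x := by
  classical
  intro hx
  have hstep : ∀ i : ℕ, f^[i + 1] x < f^[i] x := by
    intro i
    apply lt_of_le_of_ne
    · rw [Function.iterate_succ_apply]
      exact (hf.iterate i) hx
    · rw [Function.iterate_succ_apply']
      exact fun h => hfix _ h
  have hsm : StrictAnti (fun i : ℕ => f^[i] x) := strictAnti_nat_of_succ_lt hstep
  have h1 := hn ((Finset.range (n + 1)).image (fun i : ℕ => f^[i] x)) (by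
    intro u hu v hv _
    rw [Finset.mem_coe, mem_image] at hu hv
    obtain ⟨i, _, rfl⟩ := hu
    obtain ⟨j, _, rfl⟩ := hv
    rcases le_total i j with h | h
    · exact Or.inr (hsm.antitone h)
    · exact Or.inl (hsm.antitone h))
  rw [Finset.card_image_of_injective _ hsm.injective, Finset.card_range] at h1
  omega

theorem t_F4 (h2 : S_F2) (h3 : S_F3) : S_F4 := by
  classical
  intro P _ ⟨n, hn⟩ s hi hii hH f hf
  by_contra hcon
  push Not at hcon
  let E : P → Prop := fun x => ¬ ∃ z, IsGLB ({s, f x} : Set P) z
  let a : P → P := fun e => if h : ∃ z, IsLUB ({s, f e} : Set P) z then h.choose else s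
  let b : P → P := fun d => if h : ∃ z, IsGLB ({s, f d} : Set P) z then h.choose else s
  let c : P → P → P := fun e d =>
    if h : ∃ z, IsLUB ({b d, f e} : Set P) z then h.choose else s
  have ha : ∀ e, E e → IsLUB ({s, f e} : Set P) (a e) := by
    intro e he
    have hex : ∃ z, IsLUB ({s, f e} : Set P) z := (hi (f e)).resolve_right he
    have : a e = hex.choose := dif_pos hex
    rw [this]
    exact hex.choose_spec
  have hb : ∀ d, ¬ E d → IsGLB ({s, f d} : Set P) (b d) := by
    intro d hd
    have hex : ∃ z, IsGLB ({s, f d} : Set P) z := not_not.1 hd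
    have : b d = hex.choose := dif_pos hex
    rw [this]
    exact hex.choose_spec
  have hc : ∀ e d, E e → ¬ E d → e < d → IsLUB ({b d, f e} : Set P) (c e d) := by
    intro e d he hd hed
    have hlt : f e < f d := by
      apply lt_of_le_of_ne (hf hed.le)
      intro h
      apply hd
      show ¬ ∃ z, IsGLB ({s, f d} : Set P) z
      rw [← h]
      exact he
    have hex : ∃ z, IsLUB ({b d, f e} : Set P) z := hii (f e) (f d) hlt he (b d) (hb d hd)
    have : c e d = hex.choose := dif_pos hex
    rw [this]
    exact hex.choose_spec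
  have hSP : SP s f E a b c :=
    ⟨hf, F4_up n hn f hf hcon, F4_down n hn f hf hcon, ha, hb, fun e he => he, hc⟩
  have hLen : Len P n := by
    intro σ hσ
    apply hn
    intro x hx y hy _
    exact hσ x hx y hy
  rcases hH with h | h
  · exact h2 P n s f E a b c hLen hSP h
  · exact h3 P n s f E a b c hLen hSP h

end Pool.Agent.H444R2.SE
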