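import Pool.Agent.H444R2.SE.A1
import Pool.Agent.H444R2.SE.A2
import Pool.Agent.H444R2.SE.A3
import Pool.Agent.H444R2.SE.A4
import Pool.Agent.H444R2.SE.A4b
import Pool.Agent.H444R2.SE.A5
import Pool.Agent.H444R2.SE.A6
import Pool.Agent.H444R2.SE.A6b
import Pool.Agent.H444R2.SE.A7
import Pool.Agent.H444R2.SE.B1
import Pool.Agent.H444R2.SE.B2x
import Pool.Agent.H444R2.SE.B3
import Pool.Agent.H444R2.SE.B4
import Pool.Agent.H444R2.SE.B5
import Pool.Agent.H444R2.SE.B6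
import Pool.Agent.H444R2.SE.C1
import Pool.Agent.H444R2.SE.C2
import Pool.Agent.H444R2.SE.D0
import Pool.Agent.H444R2.SE.D0b
import Pool.Agent.H444R2.SE.D1
import Pool.Agent.H444R2.SE.D2
import Pool.Agent.H444R2.SE.D3a
import Pool.Agent.H444R2.SE.D3b
import Pool.Agent.H444R2.SE.F1
import Pool.Agent.H444R2.SE.F2
import Pool.Agent.H444R2.SE.F3
import Pool.Agent.H444R2.SE.F4

set_option autoImplicit false

namespace Pool.Agent.H444R2.SE

theorem all_A5 : S_A5 := t_A5 t_A1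

theorem all_A7 : S_A7 := t_A7 all_A5 t_A6 t_A6b

theorem all_B1 : S_B1 := t_B1 t_A2 (t_A4 t_A3) (t_A4b t_A3)

theorem all_B3 : S_B3 := t_B3 t_B2x

theorem all_B5 : S_B5 := t_B5 t_B2x

theorem all_D0b : S_D0b := t_D0b t_D0 t_D1

theorem all_D3a : S_D3a := t_D3a t_D0 all_D0b t_D1

theorem all_D3b : S_D3b := t_D3b t_D0 all_D0b t_D1

theorem all_F1 : S_F1 := t_F1 all_A7 all_B1 all_B3 t_B6

theorem all_F2 : S_F2 := t_F2 t_C1 t_C2 t_B4 all_B5 all_F1

theorem all_F3 : S_F3 := t_F3 t_C1 t_B4 all_B5 all_D0b t_D2 all_D3a all_D3b all_F1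

/-- A poset of finite length with a special element `s` has the fixed point property, if
`H1 s` or `H2 s`. -/
theorem all_F4 : S_F4 := t_F4 all_F2 all_F3

end Pool.Agent.H444R2.SE
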