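import Pool.Agent.H444R2.SE.Defs

/-! B2: structure of the elements of `τ`. -/

set_option autoImplicit false

namespace Pool.Agent.H444R2.SE

open Finset

theorem b2_lt {P : Type} [PartialOrder P] {s : P} {f : P → P}
    {E : P → Prop} {a b : P → P} {c : P → P → P} (h : SP s f E a b c) {τ : Finset P}
    (hτ : Ch τ) {e t : P} (he : e ∈ τ) (ht : t ∈ τ) (hf : f e ≤ t) : e < t := by
  rcases hτ e he t ht with h1 | h1
  · refine lt_of_le_of_ne h1 ?_
    rintro rfl
    exact h.inc2 e hf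
  · exact absurd (hf.trans h1) (h.inc2 e)

theorem t_B2 : S_B2 := by
  classical
  intro P _ s f E a b c h σ τ hR t ht
  obtain ⟨-, hch, hsub, -, hK⟩ := hR
  have h1 := hK ht
  unfold Kc at h1
  rw [Finset.mem_insert, Finset.mem_union, Finset.mem_union, Finset.mem_union, Finset.mem_image,
    Finset.mem_image, Finset.mem_image, Finset.mem_image] at h1
  rcases h1 with h1 | ((⟨x, hx, rfl⟩ | ⟨e, he, rfl⟩) | ⟨d, hd, rfl⟩) | ⟨⟨e, d⟩, hp, rfl⟩
  · exact Or.inl h1
  · exfalso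
    rcases hch x (hsub hx) (f x) ht with h2 | h2
    · exact h.inc1 x h2
    · exact h.inc2 x h2
  · rw [Finset.mem_filter] at he
    refine Or.inr (Or.inr (Or.inl ⟨e, he.1, he.2, ?_, rfl⟩))
    exact b2_lt h hch (hsub he.1) ht ((h.ha e he.2).1 (Set.mem_insert_of_mem _ rfl))
  · rw [Finset.mem_filter] at hd
    exact Or.inr (Or.inl ⟨d, hd.1, hd.2, rfl⟩)
  · rw [Finset.mem_filter, Finset.mem_product] at hp
    obtain ⟨⟨he, hd⟩, hE, hD, hlt⟩ := hp
    refine Or.inr (Or.inr (Or.inr ⟨e, he, d, hd, hE, hD, hlt, ?_, rfl⟩))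
    exact b2_lt h hch (hsub he) ht ((h.hc e d hE hD hlt).1 (Set.mem_insert_of_mem _ rfl))

end Pool.Agent.H444R2.SE
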