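import Pool.Agent.H444R2.SE.Defs

set_option autoImplicit false

namespace Pool.Agent.H444R2.SE

namespace B6aux

open Classical in
/-- balls -/
noncomputable def D {T : Type} {Q : T → T → Prop} (hfin : ∀ x, {y | Q x y}.Finite) (x0 : T) :
    ℕ → Finset T
  | 0 => {x0}
  | n + 1 => D hfin x0 n ∪ (D hfin x0 n).biUnion fun x => (hfin x).toFinset

/-- spheres -/
def L {T : Type} {Q : T → T → Prop} (hfin : ∀ x, {y | Q x y}.Finite) (x0 : T) :
    ℕ → Set T
  | 0 => {x0}
  | n + 1 => {y | y ∈ D hfin x0 (n + 1) ∧ y ∉ D hfin x0 n}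

variable {T : Type} {Q : T → T → Prop} (hfin : ∀ x, {y | Q x y}.Finite) (x0 : T)

lemma D_mono : Monotone (D hfin x0) := by
  classical
  refine monotone_nat_of_le_succ fun n => ?_
  rw [D]
  exact Finset.subset_union_left

lemma mem_D_succ {n : ℕ} {x y : T} (hx : x ∈ D hfin x0 n) (h : Q x y) :
    y ∈ D hfin x0 (n + 1) := by
  classical
  rw [D]
  refine Finset.mem_union_right _ (Finset.mem_biUnion.2 ⟨x, hx, ?_⟩)
  rw [Set.Finite.mem_toFinset]
  exact h

lemma x0_mem (n : ℕ) : x0 ∈ D hfin x0 n :=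
  D_mono hfin x0 (Nat.zero_le n) (by rw [D]; exact Finset.mem_singleton_self x0)

lemma L_sub {n : ℕ} {x : T} (hx : x ∈ L hfin x0 n) : x ∈ D hfin x0 n := by
  cases n with
  | zero => rw [L] at hx; rw [D, Finset.mem_singleton]; exact hx
  | succ n => exact hx.1

lemma L_disj {m n : ℕ} {x : T} (hm : x ∈ L hfin x0 m) (hn : x ∈ L hfin x0 n) (h : m < n) :
    False := by
  obtain ⟨k, rfl⟩ : ∃ k, n = k + 1 := ⟨n - 1, by omega⟩
  exact hn.2 (D_mono hfin x0 (by omega : m ≤ k) (L_sub hfin x0 hm))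

/-- every element of a sphere has a neighbour in the previous one -/
lemma exists_par {n : ℕ} {y : T} (hy : y ∈ L hfin x0 (n + 1)) :
    ∃ x ∈ L hfin x0 n, Q x y := by
  classical
  have h1 := hy.1
  rw [D] at h1
  rcases Finset.mem_union.1 h1 with h | h
  · exact absurd h hy.2
  · obtain ⟨x, hx, hxy⟩ := Finset.mem_biUnion.1 h
    rw [Set.Finite.mem_toFinset] at hxy
    refine ⟨x, ?_, hxy⟩
    cases n with
    | zero => rw [D, Finset.mem_singleton] at hx; rw [L, hx]; rfl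
    | succ k =>
      refine ⟨hx, fun h' => hy.2 ?_⟩
      exact mem_D_succ hfin x0 h' hxy

/-- chains through the spheres from level `n` to level `m` -/
def Chn (n : ℕ) (x : T) (m : ℕ) : Prop :=
  ∃ z : ℕ → T, z n = x ∧ ∀ i, n ≤ i → i < m →
    z (i + 1) ∈ L hfin x0 (i + 1) ∧ Q (z i) (z (i + 1))

lemma chain_down (m : ℕ) : ∀ y ∈ L hfin x0 m, ∃ z : ℕ → T, z 0 = x0 ∧ z m = y ∧
    ∀ i, i < m → z (i + 1) ∈ L hfin x0 (i + 1) ∧ Q (z i) (z (i + 1)) := by
  induction m with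
  | zero =>
    intro y hy
    exact ⟨fun _ => x0, rfl, hy.symm, fun i hi => absurd hi (Nat.not_lt_zero i)⟩
  | succ m ih =>
    intro y hy
    obtain ⟨x, hx, hxy⟩ := exists_par hfin x0 hy
    obtain ⟨z, hz0, hzm, hz⟩ := ih x hx
    refine ⟨fun i => if i ≤ m then z i else y, by simp [hz0], by simp, fun i hi => ?_⟩
    rcases Nat.lt_or_ge i m with h | h
    · have h1 : i ≤ m := h.le
      have h2 : i + 1 ≤ m := h
      simp only [h1, h2, if_true]
      exact hz i h
    · have h1 : i = m := by omega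
      subst h1
      have h2 : ¬ i + 1 ≤ i := by omega
      simp only [le_refl, if_true, h2, if_false]
      exact ⟨hy, by rw [hzm]; exact hxy⟩

end B6aux

open B6aux in
theorem t_B6 : S_B6 := by
  intro T Q x0 _hsymm hfin hout
  classical
  -- all spheres are nonempty
  have hne : ∀ m, ∃ y, y ∈ L hfin x0 m := by
    intro m
    cases m with
    | zero => exact ⟨x0, rfl⟩
    | succ m =>
      obtain ⟨x, y, hx, hy, hxy⟩ := hout (D hfin x0 m) (x0_mem hfin x0 m)
      exact ⟨y, mem_D_succ hfin x0 hx hxy, hy⟩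
  have hbase : x0 ∈ L hfin x0 0 ∧ ∀ m, Chn hfin x0 0 x0 m := by
    refine ⟨rfl, fun m => ?_⟩
    obtain ⟨y, hy⟩ := hne m
    obtain ⟨z, hz0, -, hz⟩ := chain_down hfin x0 m y hy
    exact ⟨z, hz0, fun i _ hi => hz i hi⟩
  have hstep : ∀ (n : ℕ) (x : T), (x ∈ L hfin x0 n ∧ ∀ m, Chn hfin x0 n x m) →
      ∃ y, Q x y ∧ (y ∈ L hfin x0 (n + 1) ∧ ∀ m, Chn hfin x0 (n + 1) y m) := by
    rintro n x ⟨-, hx⟩
    by_contra hcon
    push Not at hcon
    have hex : ∀ y, ∃ m, (Q x y ∧ y ∈ L hfin x0 (n + 1)) → ¬ Chn hfin x0 (n + 1) y m := by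
      intro y
      by_cases h : Q x y ∧ y ∈ L hfin x0 (n + 1)
      · obtain ⟨m, hm⟩ := hcon y h.1 h.2
        exact ⟨m, fun _ => hm⟩
      · exact ⟨0, fun h' => absurd h' h⟩
    choose g hg using hex
    set M := (hfin x).toFinset.sup g with hM
    obtain ⟨z, hzn, hz⟩ := hx (M + n + 1)
    have h1 := hz n le_rfl (by omega)
    rw [hzn] at h1
    refine hg (z (n + 1)) ⟨h1.2, h1.1⟩ ⟨z, rfl, fun i hi him => hz i (by omega) ?_⟩
    have : g (z (n + 1)) ≤ M := Finset.le_sup (by rw [Set.Finite.mem_toFinset]; exact h1.2)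
    omega
  choose! nx hnx using hstep
  let r : ℕ → T := fun n => Nat.rec x0 (fun k y => nx k y) n
  have hr0 : r 0 = x0 := rfl
  have hrs : ∀ n, r (n + 1) = nx n (r n) := fun n => rfl
  have hgood : ∀ n, r n ∈ L hfin x0 n ∧ ∀ m, Chn hfin x0 n (r n) m := by
    intro n
    induction n with
    | zero => exact hbase
    | succ n ih => rw [hrs]; exact (hnx n (r n) ih).2
  refine ⟨r, hr0, ?_, fun i => by rw [hrs]; exact (hnx i (r i) (hgood i)).1⟩
  intro m n hmn
  by_contra hne'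
  rcases Nat.lt_or_gt_of_ne hne' with h | h
  · exact L_disj hfin x0 (hmn ▸ (hgood m).1) (hgood n).1 h
  · exact L_disj hfin x0 (hmn ▸ (hgood n).1) (hgood m).1 h

end Pool.Agent.H444R2.SE
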