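import Mathlib

set_option autoImplicit false

/-! Special elements in posets of finite length: definitions and statements of the tasks
(helper444). Chains are finite sets (`Finset P`) that are totally ordered; chain groups are
`Finset P →₀ ZMod 2`, with the augmented simplicial boundary. -/

namespace Pool.Agent.H444R2.SE

open Finset

/-- `σ` is totally ordered. -/
def Ch {P : Type} [PartialOrder P] (σ : Finset P) : Prop :=
  ∀ x ∈ σ, ∀ y ∈ σ, x ≤ y ∨ y ≤ x

/-- mod 2 chain group on all finite subsets. -/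
abbrev CC (P : Type) := Finset P →₀ ZMod 2

/-- augmented boundary. -/
noncomputable def bd {P : Type} [DecidableEq P] : CC P →ₗ[ZMod 2] CC P :=
  Finsupp.linearCombination (ZMod 2)
    (fun σ : Finset P => ∑ x ∈ σ, Finsupp.single (σ.erase x) (1 : ZMod 2))

/-- supported on chains inside `K`. -/
def InK {P : Type} [PartialOrder P] (K : Finset P) (z : CC P) : Prop :=
  ∀ τ ∈ z.support, Ch τ ∧ τ ⊆ K

/-- augmented acyclicity of the order complex of `K`, mod 2. -/
def Acyc {P : Type} [PartialOrder P] [DecidableEq P] (K : Finset P) : Prop :=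
  ∀ z : CC P, InK K z → bd z = 0 → ∃ w : CC P, InK K w ∧ bd w = z

/-- induced chain map of `f` (degenerate simplices are killed). -/
noncomputable def fs {P : Type} [DecidableEq P] (f : P → P) : CC P →ₗ[ZMod 2] CC P :=
  Finsupp.linearCombination (ZMod 2)
    (fun σ : Finset P => if (σ.image f).card = σ.card then
      Finsupp.single (σ.image f) (1 : ZMod 2) else 0)

/-- a chain map carried by the point `s`. -/
noncomputable def cs {P : Type} [DecidableEq P] (s : P) : CC P →ₗ[ZMod 2] CC P :=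
  Finsupp.linearCombination (ZMod 2)
    (fun σ : Finset P => if σ.card = 0 then Finsupp.single (∅ : Finset P) (1 : ZMod 2)
      else if σ.card = 1 then Finsupp.single ({s} : Finset P) (1 : ZMod 2) else 0)

/-- the relation `σ` is a facet of the chain `τ`, and `τ` lies in the carrier of `σ`. -/
def Rl {P : Type} [PartialOrder P] (K : Finset P → Finset P) (σ τ : Finset P) : Prop :=
  σ.Nonempty ∧ Ch τ ∧ σ ⊆ τ ∧ τ.card = σ.card + 1 ∧ τ ⊆ K σ

/-- the data attached to a fixed point free map of a poset with a special element. -/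
structure SP {P : Type} [PartialOrder P] (s : P) (f : P → P) (E : P → Prop) (a b : P → P)
    (c : P → P → P) : Prop where
  mono : Monotone f
  inc1 : ∀ x, ¬ x ≤ f x
  inc2 : ∀ x, ¬ f x ≤ x
  ha : ∀ e, E e → IsLUB ({s, f e} : Set P) (a e)
  hb : ∀ d, ¬ E d → IsGLB ({s, f d} : Set P) (b d)
  hE : ∀ e, E e → ¬ ∃ z, IsGLB ({s, f e} : Set P) z
  hc : ∀ e d, E e → ¬ E d → e < d → IsLUB ({b d, f e} : Set P) (c e d)

/-- every chain has at most `N` elements. -/
def Len (P : Type) [PartialOrder P] (N : ℕ) : Prop := ∀ σ : Finset P, Ch σ → σ.card ≤ N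

open Classical in
/-- the carrier. -/
noncomputable def Kc {P : Type} (s : P) (f : P → P) [PartialOrder P] (E : P → Prop)
    (a b : P → P) (c : P → P → P) (σ : Finset P) : Finset P :=
  insert s (σ.image f ∪ (σ.filter E).image a ∪ (σ.filter (fun x => ¬ E x)).image b ∪
    ((σ ×ˢ σ).filter (fun p => E p.1 ∧ ¬ E p.2 ∧ p.1 < p.2)).image (fun p => c p.1 p.2))

open Classical in
/-- the label of a chain. -/
noncomputable def Bl {P : Type} (E : P → Prop) (b : P → P) (σ : Finset P) : Finset P :=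
  (σ.filter (fun x => ¬ E x)).image b

/-- comparability graph of `{x | x < s}`. -/
def cg {P : Type} [PartialOrder P] (s : P) : SimpleGraph P where
  Adj x y := x < s ∧ y < s ∧ (x < y ∨ y < x)
  symm := ⟨fun _ _ h => ⟨h.2.1, h.1, h.2.2.symm⟩⟩
  loopless := ⟨fun x h => by rcases h.2.2 with h | h <;> exact lt_irrefl x h⟩

/-- tree of words: a word and the word with one more letter in front are adjacent. -/
def tg (P : Type) : SimpleGraph (List P) where
  Adj S S' := (∃ x, S' = x :: S) ∨ (∃ x, S = x :: S')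
  symm := ⟨fun _ _ h => h.symm⟩
  loopless := ⟨fun S h => by
    rcases h with ⟨x, h⟩ | ⟨x, h⟩
    · exact absurd (congrArg List.length h) (by simp)
    · exact absurd (congrArg List.length h) (by simp)⟩

open Classical in
/-- push a letter on a stack (head = last letter), cancelling repetitions and backtracks. -/
noncomputable def psh {P : Type} (S : List P) (x : P) : List P :=
  match S with
  | [] => [x]
  | [y] => if x = y then [y] else [x, y]
  | y :: z :: r => if x = y then y :: z :: r else if x = z then z :: r else x :: y :: z :: r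

/-- reduced words. -/
def Rd {P : Type} : List P → Prop
  | [] => True
  | [_] => True
  | y :: z :: r => y ≠ z ∧ r.head? ≠ some y ∧ Rd (z :: r)

open Classical in
/-- the largest element of a chain (default `s`). -/
noncomputable def mx {P : Type} [PartialOrder P] (s : P) (σ : Finset P) : P :=
  if h : ∃ t ∈ σ, ∀ x ∈ σ, x ≤ t then h.choose else s

open Classical in
/-- stack of the letters `β s, β t₁, …, β tₙ` for the chain `σ = {t₁ < … < tₙ}`. -/
noncomputable def st {P : Type} [PartialOrder P] (β : P → P) (s : P) : ℕ → Finset P → List P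
  | 0, _ => [β s]
  | n + 1, σ => psh (st β s n (σ.erase (mx s σ))) (β (mx s σ))

/-- stack of a chain. -/
noncomputable def stk {P : Type} [PartialOrder P] (β : P → P) (s : P) (σ : Finset P) : List P :=
  st β s σ.card σ

open Classical in
/-- reduced labels of a chain. -/
noncomputable def Lab {P : Type} [PartialOrder P] (β : P → P) (s : P) (E : P → Prop)
    (σ : Finset P) : Finset (List P) :=
  (σ.filter (fun x => ¬ E x)).image (fun d => stk β s (σ.filter (fun x => x ≤ d)))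

/-- the properties of `β` from B4. -/
def Bet {P : Type} [PartialOrder P] (s : P) (E : P → Prop) (a b : P → P) (β : P → P) : Prop :=
  (∀ t, ¬ E t → β t = b t) ∧ (∀ t, E t → t ≤ a t → β t < s) ∧
    (∀ x y, x ≤ y → (E x → x ≤ a x) → (E y → y ≤ a y) → (E x → y ≤ a x) →
      β x ≤ β y ∨ β y ≤ β x)

/-- the properties of `τ` from B5. -/
def Rel5 {P : Type} [PartialOrder P] (s : P) (E : P → Prop) (a b : P → P)
    (σ τ : Finset P) : Prop :=
  (∀ t ∈ τ, E t → t ≤ a t) ∧ (∀ t ∈ τ, ¬ E t → b t < s) ∧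
    (∀ t ∈ τ, ∀ t' ∈ τ, t < t' → E t → (∀ x ∈ σ, x < t' → x ≤ t) → t' ≤ a t) ∧
    (∀ t ∈ τ, (∀ x ∈ σ, ¬ x < t) → t ≤ s)

/-- no chain with three elements below `s`. -/
def H2 {P : Type} [PartialOrder P] (s : P) : Prop := ∀ x y z : P, x < y → y < z → ¬ z < s

/-- no bounded ray in the comparability graph of `{x | x < s}`. -/
def H1 {P : Type} [PartialOrder P] (s : P) : Prop := ∀ (m : P) (k : ℕ),
  ¬ ∃ r : ℕ → P, Function.Injective r ∧ ∀ i, (cg s).Adj (r i) (r (i + 1)) ∧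
    ∃ p : (cg s).Walk m (r i), p.length ≤ k

/-! ### Tasks -/

/-- A1 -/
def S_A1 : Prop := ∀ (P : Type) [DecidableEq P] (z : CC P), bd (bd z) = 0

/-- A2: cones are acyclic -/
def S_A2 : Prop := ∀ (P : Type) [PartialOrder P] [DecidableEq P] (K : Finset P) (t : P),
  t ∈ K → (∀ y ∈ K, y ≤ t ∨ t ≤ y) → Acyc K

/-- A3: removing a point whose link is a cone -/
def S_A3 : Prop := ∀ (P : Type) [PartialOrder P] [DecidableEq P] (K : Finset P) (x t : P),
  x ∈ K → t ∈ K → t ≠ x → (t ≤ x ∨ x ≤ t) →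
  (∀ y ∈ K, (y ≤ x ∨ x ≤ y) → (y ≤ t ∨ t ≤ y)) → Acyc (K.erase x) → Acyc K

/-- A4: closure operators -/
def S_A4 : Prop := ∀ (P : Type) [PartialOrder P] [DecidableEq P] (K K' : Finset P),
  K' ⊆ K → (∀ y ∈ K, y ∉ K' → ∃ t ∈ K', y < t ∧ ∀ z ∈ K', y ≤ z → t ≤ z) → Acyc K' → Acyc K

/-- A4b: kernel operators -/
def S_A4b : Prop := ∀ (P : Type) [PartialOrder P] [DecidableEq P] (K K' : Finset P),
  K' ⊆ K → (∀ y ∈ K, y ∉ K' → ∃ t ∈ K', t < y ∧ ∀ z ∈ K', z ≤ y → z ≤ t) → Acyc K' → Acyc K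

/-- A5: existence of a homotopy by acyclic carriers -/
def S_A5 : Prop := ∀ (P : Type) [PartialOrder P] [DecidableEq P] (N : ℕ)
  (K : Finset P → Finset P) (T : CC P →ₗ[ZMod 2] CC P), Len P N →
  (∀ ρ σ : Finset P, ρ ⊆ σ → K ρ ⊆ K σ) →
  (∀ σ : Finset P, σ.Nonempty → Ch σ → Acyc (K σ)) →
  T (Finsupp.single ∅ 1) = 0 →
  (∀ z : CC P, bd (T z) = T (bd z)) →
  (∀ σ : Finset P, σ.Nonempty → Ch σ → InK (K σ) (T (Finsupp.single σ 1))) →
  ∃ h : CC P →ₗ[ZMod 2] CC P, h (Finsupp.single ∅ 1) = 0 ∧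
    ∀ σ : Finset P, σ.Nonempty → Ch σ → InK (K σ) (h (Finsupp.single σ 1)) ∧
      bd (h (Finsupp.single σ 1)) + h (bd (Finsupp.single σ 1)) = T (Finsupp.single σ 1)

/-- A6: `fs` is a chain map -/
def S_A6 : Prop := ∀ (P : Type) [DecidableEq P] (f : P → P) (z : CC P),
  bd (fs f z) = fs f (bd z)

/-- A6b: `cs` is a chain map -/
def S_A6b : Prop := ∀ (P : Type) [DecidableEq P] (s : P) (z : CC P),
  bd (cs s z) = cs s (bd z)

/-- A7: the component of `{s}` is infinite -/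
def S_A7 : Prop := ∀ (P : Type) [PartialOrder P] [DecidableEq P] (N : ℕ)
  (K : Finset P → Finset P) (f : P → P) (s : P), Len P N → Monotone f →
  (∀ ρ σ : Finset P, ρ ⊆ σ → K ρ ⊆ K σ) →
  (∀ σ : Finset P, σ.Nonempty → Ch σ → Acyc (K σ)) →
  (∀ σ : Finset P, σ.image f ⊆ K σ) → (∀ σ : Finset P, s ∈ K σ) →
  (∀ σ : Finset P, σ.Nonempty → Ch σ → σ.image f ≠ σ) →
  ∀ F : Finset (Finset P), (∀ σ ∈ F, σ.Nonempty ∧ Ch σ) → {s} ∈ F →
    ∃ σ τ : Finset P, Rl K σ τ ∧ ((σ ∈ F ∧ τ ∉ F) ∨ (τ ∈ F ∧ σ ∉ F))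

/-- B1: the carriers are monotone and acyclic -/
def S_B1 : Prop := ∀ (P : Type) [PartialOrder P] [DecidableEq P] (s : P) (f : P → P)
  (E : P → Prop) (a b : P → P) (c : P → P → P), SP s f E a b c →
  (∀ ρ σ : Finset P, ρ ⊆ σ → Kc s f E a b c ρ ⊆ Kc s f E a b c σ) ∧
  ∀ σ : Finset P, Ch σ → Acyc (Kc s f E a b c σ)

/-- B2: structure of the elements of `τ` -/
def S_B2 : Prop := ∀ (P : Type) [PartialOrder P] (s : P) (f : P → P)
  (E : P → Prop) (a b : P → P) (c : P → P → P), SP s f E a b c →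
  ∀ σ τ : Finset P, Rl (Kc s f E a b c) σ τ → ∀ t ∈ τ,
    t = s ∨ (∃ d ∈ σ, ¬ E d ∧ t = b d) ∨ (∃ e ∈ σ, E e ∧ e < t ∧ t = a e) ∨
    (∃ e ∈ σ, ∃ d ∈ σ, E e ∧ ¬ E d ∧ e < d ∧ e < t ∧ t = c e d)

/-- B3: finitely many `τ` for every label -/
def S_B3 : Prop := ∀ (P : Type) [PartialOrder P] (N : ℕ) (s : P) (f : P → P)
  (E : P → Prop) (a b : P → P) (c : P → P → P), Len P N → SP s f E a b c →
  ∀ B : Finset P, {τ : Finset P | ∃ σ, Rl (Kc s f E a b c) σ τ ∧ Bl E b σ ⊆ B}.Finite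

/-- B4: the function `β` (value of `b` at the end of the orbit under `a`) -/
def S_B4 : Prop := ∀ (P : Type) [PartialOrder P] (N : ℕ) (s : P) (f : P → P)
  (E : P → Prop) (a b : P → P) (c : P → P → P), Len P N → SP s f E a b c →
  ∃ β : P → P, Bet s E a b β

/-- B5: consequences of B2 for `τ` -/
def S_B5 : Prop := ∀ (P : Type) [PartialOrder P] (s : P) (f : P → P)
  (E : P → Prop) (a b : P → P) (c : P → P → P), SP s f E a b c →
  (¬ E s → b s < s) ∧
  ∀ σ τ : Finset P, Rl (Kc s f E a b c) σ τ → Rel5 s E a b σ τ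

/-- B6: König -/
def S_B6 : Prop := ∀ (T : Type) (Q : T → T → Prop) (x0 : T), (∀ x y, Q x y → Q y x) →
  (∀ x, {y | Q x y}.Finite) →
  (∀ F : Finset T, x0 ∈ F → ∃ x y, x ∈ F ∧ y ∉ F ∧ Q x y) →
  ∃ r : ℕ → T, r 0 = x0 ∧ Function.Injective r ∧ ∀ i, Q (r i) (r (i + 1))

/-- C1: a wandering walk of cliques yields a ray -/
def S_C1 : Prop := ∀ (V : Type) (G : SimpleGraph V) (B : ℕ → Finset V),
  (∀ i, ∀ x ∈ B i, ∀ y ∈ B i, x ≠ y → G.Adj x y) →
  (∀ i, B i ⊆ B (i + 1) ∨ B (i + 1) ⊆ B i) →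
  (∀ C : Finset V, {i | B i = C}.Finite) →
  ∃ r : ℕ → V, Function.Injective r ∧ (∀ i, G.Adj (r i) (r (i + 1))) ∧
    ∀ i, ∃ j, r i ∈ B j

/-- C2: labels are close to a fixed vertex -/
def S_C2 : Prop := ∀ (P : Type) [PartialOrder P] (N : ℕ) (s : P) (f : P → P)
  (E : P → Prop) (a b : P → P) (c : P → P → P) (β : P → P), Len P N → SP s f E a b c →
  (¬ E s → b s < s) → Bet s E a b β →
  ∀ σ τ : Finset P, Rl (Kc s f E a b c) σ τ → Rel5 s E a b σ τ → ∀ t ∈ τ, ¬ E t →
    ∃ p : (cg s).Walk (β s) (b t), p.length ≤ N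

/-- D1: stacks -/
def S_D1 : Prop := ∀ (P : Type) (S : List P) (x : P), S ≠ [] → Rd S →
  Rd (psh S x) ∧ (psh S x).head? = some x ∧ (psh S x).length ≤ S.length + 1 ∧
  (psh S x = S ∨ (tg P).Adj S (psh S x)) ∧
  ∀ p q : P, S.head? = some p → (p = x ∨ x = q ∨ p = q) → psh (psh S x) q = psh S q

/-- D2: bounded rays in the tree of words do not exist -/
def S_D2 : Prop := ∀ (P : Type) (N : ℕ) (r : ℕ → List P), Function.Injective r →
  (∀ i, (tg P).Adj (r i) (r (i + 1))) → ∃ i, N < (r i).length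

/-- D0: recursion for the stack of a chain -/
def S_D0 : Prop := ∀ (P : Type) [PartialOrder P] [DecidableEq P] (β : P → P) (s : P),
  stk β s (∅ : Finset P) = [β s] ∧
  ∀ (σ : Finset P) (t : P), (∀ x ∈ σ, x < t) →
    stk β s (insert t σ) = psh (stk β s σ) (β t)

/-- D0b: stacks are reduced, not empty, with the right head, and short -/
def S_D0b : Prop := ∀ (P : Type) [PartialOrder P] (β : P → P) (s : P) (σ : Finset P), Ch σ →
  Rd (stk β s σ) ∧ stk β s σ ≠ [] ∧ (stk β s σ).length ≤ σ.card + 1 ∧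
  (σ = ∅ → (stk β s σ).head? = some (β s)) ∧
  ∀ t ∈ σ, (∀ x ∈ σ, x ≤ t) → (stk β s σ).head? = some (β t)

/-- D3a: labels are nested -/
def S_D3a : Prop := ∀ (P : Type) [PartialOrder P] (s : P)
  (E : P → Prop) (a b : P → P) (β : P → P), H2 s → Bet s E a b β → (E s → s ≤ a s) →
  (∀ t, E t → s ≤ a t) →
  (¬ E s → b s < s) → ∀ σ τ : Finset P, Ch τ → σ ⊆ τ → τ.card = σ.card + 1 →
  Rel5 s E a b σ τ → Lab β s E σ ⊆ Lab β s E τ

/-- D3b: labels are cliques (used for `ω = σ` and for `ω = τ`) -/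
def S_D3b : Prop := ∀ (P : Type) [PartialOrder P] (s : P)
  (E : P → Prop) (a b : P → P) (β : P → P), H2 s → Bet s E a b β →
  ∀ ω : Finset P, Ch ω → (∀ t ∈ ω, E t → t ≤ a t) → (∀ t ∈ ω, ¬ E t → b t < s) →
  (∀ t ∈ ω, ∀ t' ∈ ω, t < t' → E t → (∀ x ∈ ω, x < t' → x ≤ t) → t' ≤ a t) →
  ∀ S ∈ Lab β s E ω, ∀ S' ∈ Lab β s E ω, S ≠ S' → (tg P).Adj S S'

/-- F1: the wandering path of chains -/
def S_F1 : Prop := ∀ (P : Type) [PartialOrder P] (N : ℕ) (s : P) (f : P → P)
  (E : P → Prop) (a b : P → P) (c : P → P → P), Len P N → SP s f E a b c →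
  ∃ r : ℕ → Finset P, Function.Injective r ∧
    (∀ i, Rl (Kc s f E a b c) (r i) (r (i + 1)) ∨ Rl (Kc s f E a b c) (r (i + 1)) (r i)) ∧
    ∀ C : Finset P, {i | Bl E b (r i) ⊆ C}.Finite

/-- F2: the case of no bounded ray -/
def S_F2 : Prop := ∀ (P : Type) [PartialOrder P] (N : ℕ) (s : P) (f : P → P)
  (E : P → Prop) (a b : P → P) (c : P → P → P), Len P N → SP s f E a b c → H1 s → False

/-- F3: the case of height at most two -/
def S_F3 : Prop := ∀ (P : Type) [PartialOrder P] (N : ℕ) (s : P) (f : P → P)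
  (E : P → Prop) (a b : P → P) (c : P → P → P), Len P N → SP s f E a b c → H2 s → False

/-- F4: the final theorem -/
def S_F4 : Prop := ∀ (P : Type) [PartialOrder P],
  (∃ n : ℕ, ∀ c : Finset P, IsChain (· ≤ ·) (c : Set P) → c.card ≤ n) →
  ∀ s : P, (∀ x : P, (∃ z : P, IsLUB ({s, x} : Set P) z) ∨ (∃ z : P, IsGLB ({s, x} : Set P) z)) →
  (∀ x y : P, x < y → (¬ ∃ z : P, IsGLB ({s, x} : Set P) z) →
    ∀ m : P, IsGLB ({s, y} : Set P) m → ∃ z : P, IsLUB ({m, x} : Set P) z) →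
  (H1 s ∨ H2 s) →
  ∀ f : P → P, Monotone f → ∃ x : P, f x = x

end Pool.Agent.H444R2.SE
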